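import Mathlib

set_option autoImplicit false
namespace Pool.Agent.H184R3.SP
open Finset

/-- number of functions with prescribed values on a finset -/
theorem card_prescribed {ι : Type*} [Fintype ι] [DecidableEq ι] (A : Finset ι) (f : ι → Fin 4) :
    (((univ.filter (fun z : ι → Fin 4 => ∀ a ∈ A, z a = f a)).card : ℕ) : ℝ)
      = 4 ^ Fintype.card ι * (1 / 4 ^ A.card) := by
  have h : (univ.filter (fun z : ι → Fin 4 => ∀ a ∈ A, z a = f a))
      = Fintype.piFinset (fun a => if a ∈ A then {f a} else univ) := by
    ext z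
    simp only [mem_filter, mem_univ, true_and, Fintype.mem_piFinset]
    constructor
    · intro h a
      by_cases ha : a ∈ A
      · simp [ha, h a ha]
      · simp [ha]
    · intro h a ha
      have := h a
      simpa [ha] using this
  rw [h, Fintype.card_piFinset]
  have h2 : ∀ a, (if a ∈ A then {f a} else (univ : Finset (Fin 4))).card = if a ∈ A then 1 else 4 := by
    intro a
    split_ifs <;> simp
  simp_rw [h2]
  rw [Finset.prod_ite]
  simp only [prod_const_one, one_mul, prod_const]
  have h3 : (univ.filter (fun a => a ∉ A)).card + A.card = Fintype.card ι := by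
    have : (univ.filter (fun a => a ∉ A)) = Aᶜ := by ext a; simp
    rw [this, Finset.card_compl]
    have := Finset.card_le_univ A
    omega
  rw [← h3, pow_add]
  push_cast
  field_simp

/-- exponential-moment identity for cylinder events over disjoint coordinate sets -/
theorem sum_prod {ι κ : Type*} [Fintype ι] [DecidableEq ι] [DecidableEq κ] (I : Finset κ)
    (A : κ → Finset ι) (s : ℕ) (hs : ∀ i ∈ I, (A i).card = s)
    (hd : ∀ i ∈ I, ∀ j ∈ I, i ≠ j → Disjoint (A i) (A j)) (c : κ → ι → Fin 4) (θ : ℝ) :
    ∑ z : ι → Fin 4, ∏ i ∈ I, (1 + θ * (if ∀ a ∈ A i, z a = c i a then 1 else 0))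
      = 4 ^ Fintype.card ι * (1 + θ / 4 ^ s) ^ I.card := by
  classical
  simp_rw [Finset.prod_one_add]
  rw [Finset.sum_comm]
  have key : ∀ U ∈ I.powerset, ∑ z : ι → Fin 4, ∏ i ∈ U, (θ * (if ∀ a ∈ A i, z a = c i a then 1 else 0))
      = 4 ^ Fintype.card ι * ∏ i ∈ U, (θ / 4 ^ s) := by
    intro U hU
    rw [mem_powerset] at hU
    simp_rw [Finset.prod_mul_distrib, Finset.prod_ite_zero, prod_const_one, prod_const]
    rw [← Finset.mul_sum]
    let f : ι → Fin 4 := fun a => if h : ∃ i ∈ U, a ∈ A i then c h.choose a else 0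
    have hf : ∀ i ∈ U, ∀ a ∈ A i, f a = c i a := by
      intro i hi a ha
      have hex : ∃ i ∈ U, a ∈ A i := ⟨i, hi, ha⟩
      have : f a = c hex.choose a := by simp only [f]; rw [dif_pos hex]
      rw [this]
      have h1 := hex.choose_spec
      by_cases he : hex.choose = i
      · rw [he]
      · exfalso
        exact (Finset.disjoint_left.mp (hd _ (hU h1.1) _ (hU hi) he)) h1.2 ha
    have h1 : ∀ z : ι → Fin 4, (∀ i ∈ U, ∀ a ∈ A i, z a = c i a) ↔ (∀ a ∈ U.biUnion A, z a = f a) := by
      intro z
      constructor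
      · intro h a ha
        rw [mem_biUnion] at ha
        obtain ⟨i, hi, ha⟩ := ha
        rw [h i hi a ha, hf i hi a ha]
      · intro h i hi a ha
        rw [h a (mem_biUnion.mpr ⟨i, hi, ha⟩), hf i hi a ha]
    simp_rw [h1]
    rw [Finset.sum_boole, card_prescribed]
    have h2 : (U.biUnion A).card = U.card * s := by
      rw [Finset.card_biUnion (fun i hi j hj hij => hd i (hU hi) j (hU hj) hij)]
      rw [Finset.sum_congr rfl (fun i hi => hs i (hU hi))]
      simp
    rw [h2, div_pow, mul_comm U.card s, pow_mul]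
    field_simp
  rw [Finset.sum_congr rfl key, ← Finset.mul_sum, ← Finset.prod_one_add, prod_const]

end Pool.Agent.H184R3.SP
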