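import Mathlib
import Pool.Agent.H184R3.SP.Prod

set_option autoImplicit false
namespace Pool.Agent.H184R3.SP
open Finset

/-- a Sidon sequence -/
def sid (n i : ℕ) : ℕ := i * (2 * n ^ 2) + i ^ 2

theorem sid_sidon (n : ℕ) {i j i' j' : ℕ} (hi : i < n) (hj : j < n) (hi' : i' < n) (hj' : j' < n)
    (hij : i ≠ j) (h : sid n i + sid n j' = sid n i' + sid n j) : i = i' := by
  unfold sid at h
  have hz : ((i : ℤ) - j - i' + j') * (2 * (n : ℤ) ^ 2) = (i' : ℤ) ^ 2 - j' ^ 2 - i ^ 2 + j ^ 2 := by
    have : ((i * (2 * n ^ 2) + i ^ 2 + (j' * (2 * n ^ 2) + j' ^ 2) : ℕ) : ℤ)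
        = ((i' * (2 * n ^ 2) + i' ^ 2 + (j * (2 * n ^ 2) + j ^ 2) : ℕ) : ℤ) := by exact_mod_cast h
    push_cast at this
    linarith
  have b1 : (i : ℤ) ^ 2 < n ^ 2 := by
    have : i ^ 2 < n ^ 2 := Nat.pow_lt_pow_left hi (by norm_num)
    exact_mod_cast this
  have b2 : (j : ℤ) ^ 2 < n ^ 2 := by
    have : j ^ 2 < n ^ 2 := Nat.pow_lt_pow_left hj (by norm_num)
    exact_mod_cast this
  have b3 : (i' : ℤ) ^ 2 < n ^ 2 := by
    have : i' ^ 2 < n ^ 2 := Nat.pow_lt_pow_left hi' (by norm_num)
    exact_mod_cast this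
  have b4 : (j' : ℤ) ^ 2 < n ^ 2 := by
    have : j' ^ 2 < n ^ 2 := Nat.pow_lt_pow_left hj' (by norm_num)
    exact_mod_cast this
  have n1 : (0 : ℤ) ≤ (i : ℤ) ^ 2 := by positivity
  have n2 : (0 : ℤ) ≤ (j : ℤ) ^ 2 := by positivity
  have n3 : (0 : ℤ) ≤ (i' : ℤ) ^ 2 := by positivity
  have n4 : (0 : ℤ) ≤ (j' : ℤ) ^ 2 := by positivity
  have hx : (i : ℤ) - j - i' + j' = 0 := by
    rcases lt_trichotomy ((i : ℤ) - j - i' + j') 0 with hlt | heq | hgt
    · exfalso
      have : ((i : ℤ) - j - i' + j') * (2 * (n : ℤ) ^ 2) ≤ (-1) * (2 * (n : ℤ) ^ 2) :=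
        mul_le_mul_of_nonneg_right (by omega) (by positivity)
      linarith
    · exact heq
    · exfalso
      have : 1 * (2 * (n : ℤ) ^ 2) ≤ ((i : ℤ) - j - i' + j') * (2 * (n : ℤ) ^ 2) :=
        mul_le_mul_of_nonneg_right (by omega) (by positivity)
      linarith
  rw [hx, zero_mul] at hz
  have hprod : ((i : ℤ) - j) * (i + j - i' - j') = 0 := by
    have e : (i' : ℤ) = i - j + j' := by linarith
    rw [e] at hz ⊢
    nlinarith
  rcases mul_eq_zero.mp hprod with h1 | h1
  · exfalso; apply hij; omega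
  · omega

theorem sid_le (n i : ℕ) (hi : i < n) : sid n i ≤ 3 * n ^ 3 := by
  unfold sid
  have h1 : i * (2 * n ^ 2) ≤ n * (2 * n ^ 2) := Nat.mul_le_mul_right _ hi.le
  have h2 : i ^ 2 ≤ n ^ 2 := Nat.pow_le_pow_left hi.le 2
  have h3 : n ^ 2 ≤ n ^ 3 := Nat.pow_le_pow_right (by omega) (by norm_num)
  have : n * (2 * n ^ 2) = 2 * n ^ 3 := by ring
  omega

theorem card_filter_fin (B : Finset ℕ) (N : ℕ) (hB : ∀ x ∈ B, x < N) :
    (univ.filter (fun x : Fin N => x.val ∈ B)).card = B.card := by
  rw [← Finset.card_attachFin B hB]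
  congr 1
  ext x
  simp

/-- indices whose translate of Y meets another translate -/
def bad (n : ℕ) (Y : Finset ℕ) : Finset ℕ :=
  (range n).filter (fun i => ∃ y ∈ Y, ∃ y' ∈ Y, ∃ i' ∈ range n, y ≠ y' ∧ y + sid n i = y' + sid n i')

theorem card_bad_le (n : ℕ) (Y : Finset ℕ) : (bad n Y).card ≤ Y.card * Y.card := by
  classical
  have hsub : bad n Y ⊆ (Y ×ˢ Y).biUnion (fun p => (range n).filter
      (fun i => ∃ i' ∈ range n, p.1 ≠ p.2 ∧ p.1 + sid n i = p.2 + sid n i')) := by
    intro i hi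
    unfold bad at hi
    rw [mem_filter] at hi
    obtain ⟨h1, y, hy, y', hy', i', hi', hne, he⟩ := hi
    rw [mem_biUnion]
    exact ⟨(y, y'), mem_product.mpr ⟨hy, hy'⟩, mem_filter.mpr ⟨h1, i', hi', hne, he⟩⟩
  have h2 := Finset.card_biUnion_le_card_mul (Y ×ˢ Y) (fun p => (range n).filter
      (fun i => ∃ i' ∈ range n, p.1 ≠ p.2 ∧ p.1 + sid n i = p.2 + sid n i')) 1 (by
    intro p _
    rw [Finset.card_le_one]
    intro i hi j hj
    rw [mem_filter, mem_range] at hi hj
    obtain ⟨h1, i', hi', hne, he⟩ := hi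
    obtain ⟨h1', j', hj', _, he'⟩ := hj
    rw [mem_range] at hi' hj'
    refine sid_sidon n h1 hi' h1' hj' ?_ ?_
    · intro hh
      subst hh
      apply hne
      omega
    · omega)
  calc (bad n Y).card ≤ _ := Finset.card_le_card hsub
    _ ≤ _ := h2
    _ = _ := by rw [Finset.card_product, mul_one]

/-- extension of a function on `Fin N` by zero -/
def extN (N : ℕ) (z : Fin N → Fin 4) : ℕ → Fin 4 := fun x => if h : x < N then z ⟨x, h⟩ else 0

/-- extension of a function on a finset by zero -/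
def extY (Y : Finset ℕ) (z : Y → Fin 4) : ℕ → Fin 4 := fun x => if h : x ∈ Y then z ⟨x, h⟩ else 0

theorem numeric (h C : ℕ) (hC : 1 ≤ C) (θ : ℝ) (hθ : 0 < θ) :
    ∃ n0 : ℕ, 1 ≤ n0 ∧ ∀ n : ℕ, n0 ≤ n →
      (h : ℝ) * h + (3 / 2) * (h / θ) * Real.log (4 * (C * (n : ℝ) ^ 4)) ≤ n * θ / 2 := by
  have hlog : Filter.Tendsto (fun n : ℕ => Real.log (n : ℝ) / (n : ℝ)) Filter.atTop (nhds 0) := by
    have h1 : Filter.Tendsto (fun x : ℝ => Real.log x / x) Filter.atTop (nhds 0) := by
      have := Real.isLittleO_log_id_atTop.tendsto_div_nhds_zero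
      simpa using this
    exact h1.comp tendsto_natCast_atTop_atTop
  have hinv : Filter.Tendsto (fun n : ℕ => (1 : ℝ) / (n : ℝ)) Filter.atTop (nhds 0) :=
    tendsto_one_div_atTop_nhds_zero_nat
  have hcomb : Filter.Tendsto (fun n : ℕ => ((h : ℝ) * h + (3 / 2) * (h / θ) * Real.log (4 * C)) * (1 / (n : ℝ))
      + (3 / 2) * (h / θ) * 4 * (Real.log (n : ℝ) / (n : ℝ))) Filter.atTop (nhds 0) := by
    have := (hinv.const_mul ((h : ℝ) * h + (3 / 2) * (h / θ) * Real.log (4 * C))).add
      (hlog.const_mul ((3 / 2) * (h / θ) * 4))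
    simpa using this
  have hev := (hcomb.eventually (gt_mem_nhds (show (0 : ℝ) < θ / 2 by positivity)))
  obtain ⟨n0, hn0⟩ := Filter.eventually_atTop.mp hev
  refine ⟨max n0 1, le_max_right _ _, ?_⟩
  intro n hn
  have hn1 : 1 ≤ n := le_trans (le_max_right _ _) hn
  have hnpos : (0 : ℝ) < n := by exact_mod_cast hn1
  have hCpos : (0 : ℝ) < C := by exact_mod_cast hC
  have h2 := hn0 n (le_trans (le_max_left _ _) hn)
  have h3 : Real.log (4 * (C * (n : ℝ) ^ 4)) = Real.log (4 * C) + 4 * Real.log n := by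
    rw [← mul_assoc, Real.log_mul (by positivity) (by positivity), Real.log_pow]
    norm_num
  rw [h3]
  have h4 : ((h : ℝ) * h + (3 / 2) * (h / θ) * Real.log (4 * C)) * (1 / (n : ℝ))
      + (3 / 2) * (h / θ) * 4 * (Real.log (n : ℝ) / (n : ℝ))
      = ((h : ℝ) * h + (3 / 2) * (h / θ) * (Real.log (4 * C) + 4 * Real.log n)) / n := by
    field_simp
    ring
  rw [h4, div_lt_iff₀ hnpos] at h2
  linarith

theorem exists_word (h : ℕ) (C : ℕ) (hC : 1 ≤ C) (ε : ℝ) (hε : 0 < ε) (hε1 : ε ≤ 1) :
    ∃ n0 : ℕ, 1 ≤ n0 ∧ ∀ n : ℕ, n0 ≤ n → ∃ g : ℕ → Fin 4,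
      ∀ Y ∈ (range (C * n ^ 4)).powersetCard h, ∀ c : Y → Fin 4,
        (((range n).filter (fun i => ∀ y ∈ Y, g (y + sid n i) = extY Y c y)).card : ℝ)
          ≤ (1 / 4 ^ h + ε) * n := by
  classical
  obtain ⟨n0, hn01, hn0⟩ := numeric h C hC ε hε
  refine ⟨n0, hn01, ?_⟩
  intro n hn
  have hn1 : 1 ≤ n := le_trans hn01 hn
  set R := C * n ^ 4 with hR
  set N := R + 3 * n ^ 3 + 1 with hN
  let I : Finset ℕ → Finset ℕ := fun Y => range n \ bad n Y
  let E : (ℕ → Fin 4) → (Y : Finset ℕ) → (Y → Fin 4) → ℕ → Prop :=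
    fun g Y c i => ∀ y ∈ Y, g (y + sid n i) = extY Y c y
  let Φ : (Fin N → Fin 4) → ℝ := fun z => ∑ Y ∈ (range R).powersetCard h, ∑ c : (Y → Fin 4),
    ∏ i ∈ I Y, (1 + ε * (if E (extN N z) Y c i then 1 else 0))
  have hsum : ∀ Y ∈ (range R).powersetCard h, ∀ c : (Y → Fin 4),
      ∑ z : Fin N → Fin 4, ∏ i ∈ I Y, (1 + ε * (if E (extN N z) Y c i then 1 else 0))
        ≤ 4 ^ N * (1 + ε / 4 ^ h) ^ n := by
    intro Y hY c
    rw [mem_powersetCard] at hY
    have hYlt : ∀ i < n, ∀ x ∈ Y.image (fun y => y + sid n i), x < N := by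
      intro i hi x hx
      rw [mem_image] at hx
      obtain ⟨y, hy, rfl⟩ := hx
      have := mem_range.mp (hY.1 hy)
      have := sid_le n i hi
      omega
    have h1 := sum_prod (ι := Fin N) (I Y)
      (fun i => univ.filter (fun x : Fin N => x.val ∈ Y.image (fun y => y + sid n i))) h
      (by
        intro i hi
        have hi' : i < n := mem_range.mp (mem_sdiff.mp hi).1
        rw [card_filter_fin _ N (hYlt i hi')]
        rw [card_image_of_injective _ (fun a b hab => by simpa using hab), hY.2])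
      (by
        intro i hi j hj hij
        rw [Finset.disjoint_left]
        intro x hx hx'
        simp only [mem_filter, mem_univ, true_and, mem_image] at hx hx'
        obtain ⟨y, hy, hy2⟩ := hx
        obtain ⟨y', hy', hy2'⟩ := hx'
        have hi1 := mem_sdiff.mp hi
        have hj1 := mem_sdiff.mp hj
        apply hi1.2
        unfold bad
        rw [mem_filter]
        refine ⟨hi1.1, y, hy, y', hy', j, hj1.1, ?_, by omega⟩
        intro hyy
        subst hyy
        apply hij
        have hjn := mem_range.mp hj1.1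
        have hin := mem_range.mp hi1.1
        by_contra hne
        have heq : sid n i = sid n j := by omega
        -- strict monotonicity of sid
        rcases lt_or_gt_of_ne hne with hlt | hgt
        · have : sid n i < sid n j := by
            unfold sid
            have a1 : i * (2 * n ^ 2) ≤ j * (2 * n ^ 2) := Nat.mul_le_mul_right _ hlt.le
            have a2 : i ^ 2 < j ^ 2 := Nat.pow_lt_pow_left hlt (by norm_num)
            omega
          omega
        · have : sid n j < sid n i := by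
            unfold sid
            have a1 : j * (2 * n ^ 2) ≤ i * (2 * n ^ 2) := Nat.mul_le_mul_right _ hgt.le
            have a2 : j ^ 2 < i ^ 2 := Nat.pow_lt_pow_left hgt (by norm_num)
            omega
          omega)
      (fun i x => extY Y c (x.val - sid n i)) ε
    have h2 : ∀ z : Fin N → Fin 4, ∏ i ∈ I Y, (1 + ε * (if E (extN N z) Y c i then (1 : ℝ) else 0))
        = ∏ i ∈ I Y, (1 + ε * (if ∀ a ∈ univ.filter (fun x : Fin N => x.val ∈ Y.image (fun y => y + sid n i)),
            z a = extY Y c (a.val - sid n i) then (1 : ℝ) else 0)) := by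
      intro z
      apply Finset.prod_congr rfl
      intro i hi
      have hi' : i < n := mem_range.mp (mem_sdiff.mp hi).1
      have : E (extN N z) Y c i ↔ ∀ a ∈ univ.filter (fun x : Fin N => x.val ∈ Y.image (fun y => y + sid n i)),
            z a = extY Y c (a.val - sid n i) := by
        constructor
        · intro hE a ha
          simp only [mem_filter, mem_univ, true_and, mem_image] at ha
          obtain ⟨y, hy, hya⟩ := ha
          have h3 := hE y hy
          have h4 : extN N z (y + sid n i) = z a := by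
            unfold extN
            have : y + sid n i < N := by rw [hya]; exact a.2
            rw [dif_pos this]
            congr 1
            exact Fin.ext hya
          rw [← h4, h3, ← hya]
          congr 1
          omega
        · intro hz y hy
          have hlt : y + sid n i < N := hYlt i hi' _ (mem_image.mpr ⟨y, hy, rfl⟩)
          have h3 := hz ⟨y + sid n i, hlt⟩ (by
            simp only [mem_filter, mem_univ, true_and, mem_image]
            exact ⟨y, hy, rfl⟩)
          have h4 : extN N z (y + sid n i) = z ⟨y + sid n i, hlt⟩ := by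
            unfold extN
            rw [dif_pos hlt]
          rw [h4, h3]
          congr 1
          simp
      simp only [this]
    rw [Finset.sum_congr rfl (fun z _ => h2 z)]
    have h1' : ∑ z : Fin N → Fin 4, ∏ i ∈ I Y, (1 + ε * (if ∀ a ∈ univ.filter (fun x : Fin N => x.val ∈ Y.image (fun y => y + sid n i)),
            z a = extY Y c (a.val - sid n i) then (1 : ℝ) else 0))
        = 4 ^ Fintype.card (Fin N) * (1 + ε / 4 ^ h) ^ (I Y).card := by
      convert h1
    rw [h1']
    rw [Fintype.card_fin]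
    apply mul_le_mul_of_nonneg_left _ (by positivity)
    apply pow_le_pow_right₀
    · have : 0 < ε / 4 ^ h := by positivity
      linarith
    · calc (I Y).card ≤ (range n).card := Finset.card_le_card sdiff_subset
        _ = n := card_range n
  have hcardP : (((range R).powersetCard h).card : ℝ) ≤ (R : ℝ) ^ h := by
    rw [card_powersetCard, card_range]
    exact_mod_cast Nat.choose_le_pow R h
  have htotal : ∑ z : Fin N → Fin 4, Φ z ≤ ∑ z : Fin N → Fin 4, ((R : ℝ) ^ h * 4 ^ h * (1 + ε / 4 ^ h) ^ n) := by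
    have e1 : ∑ z : Fin N → Fin 4, Φ z = ∑ Y ∈ (range R).powersetCard h, ∑ c : (Y → Fin 4),
        ∑ z : Fin N → Fin 4, ∏ i ∈ I Y, (1 + ε * (if E (extN N z) Y c i then 1 else 0)) := by
      simp only [Φ]
      rw [Finset.sum_comm]
      apply Finset.sum_congr rfl
      intro Y _
      rw [Finset.sum_comm]
    rw [e1]
    calc _ ≤ ∑ Y ∈ (range R).powersetCard h, ∑ c : (Y → Fin 4), (4 ^ N * (1 + ε / 4 ^ h) ^ n : ℝ) := by
          apply Finset.sum_le_sum
          intro Y hY
          apply Finset.sum_le_sum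
          intro c _
          exact hsum Y hY c
      _ = ((range R).powersetCard h).card * (4 ^ h * (4 ^ N * (1 + ε / 4 ^ h) ^ n)) := by
          have : ∀ Y ∈ (range R).powersetCard h, ∑ c : (Y → Fin 4), (4 ^ N * (1 + ε / 4 ^ h) ^ n : ℝ)
              = 4 ^ h * (4 ^ N * (1 + ε / 4 ^ h) ^ n) := by
            intro Y hY
            rw [mem_powersetCard] at hY
            rw [Finset.sum_const, card_univ, Fintype.card_fun, Fintype.card_coe, hY.2, Fintype.card_fin,
              nsmul_eq_mul]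
            push_cast
            ring
          rw [Finset.sum_congr rfl this, Finset.sum_const, nsmul_eq_mul]
      _ ≤ (R : ℝ) ^ h * (4 ^ h * (4 ^ N * (1 + ε / 4 ^ h) ^ n)) := by
          apply mul_le_mul_of_nonneg_right hcardP
          have : 0 < ε / 4 ^ h := by positivity
          positivity
      _ = _ := by
          rw [Finset.sum_const, card_univ, Fintype.card_fun, Fintype.card_fin, Fintype.card_fin,
              nsmul_eq_mul]
          push_cast
          ring
  obtain ⟨z, -, hz⟩ := Finset.exists_le_of_sum_le (univ_nonempty) htotal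
  refine ⟨extN N z, ?_⟩
  intro Y hY c
  have hY' := mem_powersetCard.mp hY
  have hnn : ∀ (Y : Finset ℕ) (c : Y → Fin 4) (i : ℕ), (0 : ℝ) ≤ 1 + ε * (if E (extN N z) Y c i then 1 else 0) := by
    intro Y c i
    split_ifs <;> linarith
  have h1 : ∏ i ∈ I Y, (1 + ε * (if E (extN N z) Y c i then (1 : ℝ) else 0)) ≤ Φ z := by
    calc _ ≤ ∑ c : (Y → Fin 4), ∏ i ∈ I Y, (1 + ε * (if E (extN N z) Y c i then (1 : ℝ) else 0)) :=
          Finset.single_le_sum (f := fun c : (Y → Fin 4) =>
            ∏ i ∈ I Y, (1 + ε * (if E (extN N z) Y c i then (1 : ℝ) else 0)))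
            (fun c _ => Finset.prod_nonneg (fun i _ => hnn Y c i)) (mem_univ c)
      _ ≤ _ := Finset.single_le_sum (f := fun Y : Finset ℕ => ∑ c : (Y → Fin 4),
            ∏ i ∈ I Y, (1 + ε * (if E (extN N z) Y c i then (1 : ℝ) else 0)))
            (fun Y _ => Finset.sum_nonneg (fun c _ => Finset.prod_nonneg (fun i _ => hnn Y c i))) hY
  set a' := ((I Y).filter (fun i => E (extN N z) Y c i)).card with ha'
  have h2 : ∏ i ∈ I Y, (1 + ε * (if E (extN N z) Y c i then (1 : ℝ) else 0)) = (1 + ε) ^ a' := by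
    have : ∀ i ∈ I Y, (1 + ε * (if E (extN N z) Y c i then (1 : ℝ) else 0))
        = if E (extN N z) Y c i then (1 + ε) else 1 := by
      intro i _
      split_ifs <;> simp
    rw [Finset.prod_congr rfl this, Finset.prod_ite]
    simp [ha']
  have h3 : (1 + ε) ^ a' ≤ (R : ℝ) ^ h * 4 ^ h * (1 + ε / 4 ^ h) ^ n := by
    rw [← h2]; exact le_trans h1 hz
  have hRpos : (0 : ℝ) < R := by
    have : 0 < R := by rw [hR]; positivity
    exact_mod_cast this
  have h4 : (a' : ℝ) * Real.log (1 + ε) ≤ h * Real.log (4 * R) + n * Real.log (1 + ε / 4 ^ h) := by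
    have := Real.log_le_log (by positivity) h3
    rw [Real.log_pow, ← mul_pow, Real.log_mul (by positivity) (by positivity), Real.log_pow, Real.log_pow,
      mul_comm (R : ℝ) 4] at this
    exact this
  have h5 : 2 * ε / (ε + 2) ≤ Real.log (1 + ε) := Real.le_log_one_add_of_nonneg hε.le
  have h6 : Real.log (1 + ε / 4 ^ h) ≤ ε / 4 ^ h := by
    have := Real.log_le_sub_one_of_pos (show (0 : ℝ) < 1 + ε / 4 ^ h by positivity)
    linarith
  have h7 := hn0 n hn
  have hRe : (4 * (C * (n : ℝ) ^ 4)) = 4 * (R : ℝ) := by rw [hR]; push_cast; ring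
  rw [hRe] at h7
  have hlog0 : 0 ≤ Real.log (4 * (R : ℝ)) := by
    apply Real.log_nonneg
    have : (1 : ℝ) ≤ R := by
      have : 1 ≤ R := by
        have : 0 < R := by exact_mod_cast hRpos
        omega
      exact_mod_cast this
    linarith
  have hcount : (((range n).filter (fun i => ∀ y ∈ Y, extN N z (y + sid n i) = extY Y c y)).card : ℝ)
      ≤ a' + h * h := by
    have hsub : (range n).filter (fun i => ∀ y ∈ Y, extN N z (y + sid n i) = extY Y c y)
        ⊆ (I Y).filter (fun i => E (extN N z) Y c i) ∪ bad n Y := by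
      intro i hi
      rw [mem_filter] at hi
      by_cases hb : i ∈ bad n Y
      · exact mem_union_right _ hb
      · apply mem_union_left
        rw [mem_filter]
        exact ⟨mem_sdiff.mpr ⟨hi.1, hb⟩, hi.2⟩
    have := (Finset.card_le_card hsub).trans (Finset.card_union_le _ _)
    have hb := card_bad_le n Y
    rw [hY'.2] at hb
    have : ((range n).filter (fun i => ∀ y ∈ Y, extN N z (y + sid n i) = extY Y c y)).card ≤ a' + h * h := by
      omega
    exact_mod_cast this
  -- combine
  have hp1 : (1 : ℝ) / 4 ^ h ≤ 1 := by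
    rw [div_le_one (by positivity)]
    exact one_le_pow₀ (by norm_num)
  have hp0 : (0 : ℝ) < 1 / 4 ^ h := by positivity
  set p : ℝ := 1 / 4 ^ h with hp
  have hep : ε / 4 ^ h = ε * p := by rw [hp]; ring
  rw [hep] at h6 h4
  have hnpos : (0 : ℝ) < n := by exact_mod_cast hn1
  have h8 : (a' : ℝ) * (2 * ε / (ε + 2)) ≤ h * Real.log (4 * R) + n * (ε * p) := by
    calc (a' : ℝ) * (2 * ε / (ε + 2)) ≤ a' * Real.log (1 + ε) :=
          mul_le_mul_of_nonneg_left h5 (Nat.cast_nonneg _)
      _ ≤ _ := h4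
      _ ≤ _ := by
          have := mul_le_mul_of_nonneg_left h6 hnpos.le
          linarith
  have h9 : (a' : ℝ) ≤ (1 + ε / 2) * ((h / ε) * Real.log (4 * R) + n * p) := by
    have e1 : (a' : ℝ) = (a' : ℝ) * (2 * ε / (ε + 2)) * ((1 + ε / 2) / ε) := by
      field_simp
      ring
    rw [e1]
    calc _ ≤ (h * Real.log (4 * R) + n * (ε * p)) * ((1 + ε / 2) / ε) :=
          mul_le_mul_of_nonneg_right h8 (by positivity)
      _ = _ := by field_simp
  have h10 : (1 + ε / 2) * ((h / ε) * Real.log (4 * R) + n * p)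
      ≤ (3 / 2) * (h / ε) * Real.log (4 * R) + n * p + n * ε / 2 := by
    have hq : (0 : ℝ) ≤ (h / ε) * Real.log (4 * R) := by positivity
    have a1 : (1 + ε / 2) * ((h / ε) * Real.log (4 * R)) ≤ (3 / 2) * ((h / ε) * Real.log (4 * R)) :=
      mul_le_mul_of_nonneg_right (by linarith) hq
    have a2 : (n : ℝ) * p * (ε / 2) ≤ n * 1 * (ε / 2) := by
      apply mul_le_mul_of_nonneg_right _ (by positivity)
      exact mul_le_mul_of_nonneg_left hp1 hnpos.le
    nlinarith
  nlinarith

end Pool.Agent.H184R3.SP
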