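import Mathlib
import Pool.Agent.H184R3.SP.Shift

set_option autoImplicit false
namespace Pool.Agent.H184R3.SP
open Finset

/-- descent indicator: letter `y` precedes letter `x` in the order defined by the classes `z`
(classes 0,1 listed increasingly, classes 2,3 listed decreasingly) -/
def des (z : ℕ → Fin 4) (x y : ℕ) : ℕ :=
  if z y < z x ∨ (z x = z y ∧ (((z x).val < 2 ∧ y < x) ∨ (2 ≤ (z x).val ∧ x < y))) then 1 else 0

/-- reversal of classes -/
def rv (z : ℕ → Fin 4) : ℕ → Fin 4 := fun x => Fin.rev (z x)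

theorem des_rv (z : ℕ → Fin 4) (x y : ℕ) (h : x ≠ y) : des z x y + des (rv z) x y = 1 := by
  unfold des rv
  generalize z x = a
  generalize z y = b
  rcases lt_or_gt_of_ne h with h1 | h1
  · have h2 : ¬ (y < x) := by omega
    fin_cases a <;> fin_cases b <;> simp [h1, h2, Fin.rev]
  · have h2 : ¬ (x < y) := by omega
    fin_cases a <;> fin_cases b <;> simp [h1, h2, Fin.rev]

theorem des_le_one (z : ℕ → Fin 4) (x y : ℕ) : des z x y ≤ 1 := by
  unfold des; split_ifs <;> omega

theorem des_congr (z z' : ℕ → Fin 4) (x y : ℕ) (hx : z x = z' x) (hy : z y = z' y) :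
    des z x y = des z' x y := by
  unfold des; rw [hx, hy]

/-- des is invariant under a shift of letters -/
theorem des_shift (g : ℕ → Fin 4) (m x y : ℕ) : des (fun t => g (t + m)) x y = des g (x + m) (y + m) := by
  unfold des
  simp only [Nat.add_lt_add_iff_right]

/-- averaging lemma -/
theorem avg_le (h n R : ℕ) (ε : ℝ) (g : ℕ → Fin 4)
    (hg : ∀ Y ∈ (range R).powersetCard h, ∀ c : Y → Fin 4,
        (((range n).filter (fun i => ∀ y ∈ Y, g (y + sid n i) = extY Y c y)).card : ℝ)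
          ≤ (1 / 4 ^ h + ε) * n)
    (Y : Finset ℕ) (hY : Y ∈ (range R).powersetCard h) (G : (ℕ → Fin 4) → ℝ) (B : ℝ) (hε : 0 < ε)
    (hG0 : ∀ z, 0 ≤ G z) (hGB : ∀ z, G z ≤ B)
    (hdep : ∀ z z' : ℕ → Fin 4, (∀ y ∈ Y, z y = z' y) → G z = G z') :
    ∑ i ∈ range n, G (fun x => g (x + sid n i))
      ≤ n * ((∑ c : (Y → Fin 4), G (extY Y c)) / 4 ^ h + ε * 4 ^ h * B) := by
  classical
  have hYc := (mem_powersetCard.mp hY).2
  let ci : ℕ → (Y → Fin 4) := fun i y => g (y.val + sid n i)
  have h1 : ∀ i ∈ range n, G (fun x => g (x + sid n i)) = G (extY Y (ci i)) := by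
    intro i _
    apply hdep
    intro y hy
    unfold extY
    rw [dif_pos hy]
  rw [Finset.sum_congr rfl h1]
  have h2 : ∑ i ∈ range n, G (extY Y (ci i))
      = ∑ c : (Y → Fin 4), ∑ i ∈ (range n).filter (fun i => ci i = c), G (extY Y (ci i)) := by
    rw [Finset.sum_fiberwise]
  rw [h2]
  have h3 : ∀ c : (Y → Fin 4), ∑ i ∈ (range n).filter (fun i => ci i = c), G (extY Y (ci i))
      ≤ (1 / 4 ^ h + ε) * n * G (extY Y c) := by
    intro c
    have : ∑ i ∈ (range n).filter (fun i => ci i = c), G (extY Y (ci i))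
        = ∑ i ∈ (range n).filter (fun i => ci i = c), G (extY Y c) := by
      apply Finset.sum_congr rfl
      intro i hi
      rw [(mem_filter.mp hi).2]
    rw [this, Finset.sum_const, nsmul_eq_mul]
    apply mul_le_mul_of_nonneg_right _ (hG0 _)
    refine le_trans ?_ (hg Y hY c)
    have hsub : (range n).filter (fun i => ci i = c)
        ⊆ (range n).filter (fun i => ∀ y ∈ Y, g (y + sid n i) = extY Y c y) := by
      intro i hi
      rw [mem_filter] at hi ⊢
      refine ⟨hi.1, ?_⟩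
      intro y hy
      have := congrFun hi.2 ⟨y, hy⟩
      unfold extY
      rw [dif_pos hy]
      exact this
    exact_mod_cast Finset.card_le_card hsub
  calc _ ≤ ∑ c : (Y → Fin 4), (1 / 4 ^ h + ε) * n * G (extY Y c) := Finset.sum_le_sum (fun c _ => h3 c)
    _ = n * ((∑ c : (Y → Fin 4), G (extY Y c)) / 4 ^ h) + n * ε * ∑ c : (Y → Fin 4), G (extY Y c) := by
        rw [← Finset.mul_sum]; ring
    _ ≤ n * ((∑ c : (Y → Fin 4), G (extY Y c)) / 4 ^ h) + n * ε * (4 ^ h * B) := by
        have : ∑ c : (Y → Fin 4), G (extY Y c) ≤ 4 ^ h * B := by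
          calc _ ≤ ∑ c : (Y → Fin 4), B := Finset.sum_le_sum (fun c _ => hGB _)
            _ = _ := by
              rw [Finset.sum_const, card_univ, Fintype.card_fun, Fintype.card_coe, hYc, Fintype.card_fin,
                nsmul_eq_mul]
              push_cast; ring
        have := mul_le_mul_of_nonneg_left this (show (0 : ℝ) ≤ n * ε by positivity)
        linarith
    _ = _ := by ring

theorem rng_ne (L : ℕ) : (range (L + 1)).Nonempty := ⟨0, mem_range.mpr (Nat.succ_pos L)⟩

/-- minimum over the options -/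
def mn (L : ℕ) (F : ℕ → (ℕ → Fin 4) → ℕ) (z : ℕ → Fin 4) : ℕ := (range (L + 1)).inf' (rng_ne L) (fun j => F j z)
def mx (L : ℕ) (F : ℕ → (ℕ → Fin 4) → ℕ) (z : ℕ → Fin 4) : ℕ := (range (L + 1)).sup' (rng_ne L) (fun j => F j z)

theorem mn_rv (L : ℕ) (F : ℕ → (ℕ → Fin 4) → ℕ) (nst : ℕ) (hrev : ∀ j ≤ L, ∀ z, F j z + F j (rv z) = nst)
    (z : ℕ → Fin 4) : mn L F (rv z) + mx L F z = nst := by
  unfold mn mx
  obtain ⟨j, hj, hjm⟩ := Finset.exists_mem_eq_inf' (rng_ne L) (fun j => F j (rv z))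
  obtain ⟨j', hj', hjm'⟩ := Finset.exists_mem_eq_sup' (rng_ne L) (fun j => F j z)
  have hjL : j ≤ L := by rw [mem_range] at hj; omega
  have hjL' : j' ≤ L := by rw [mem_range] at hj'; omega
  have h1 := hrev j hjL z
  have h2 := hrev j' hjL' z
  have h3 : (range (L + 1)).inf' (rng_ne L) (fun j => F j (rv z)) ≤ F j' (rv z) :=
    Finset.inf'_le (fun j => F j (rv z)) hj'
  have h4 : F j z ≤ (range (L + 1)).sup' (rng_ne L) (fun j => F j z) :=
    Finset.le_sup' (fun j => F j z) hj
  omega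

theorem mn_lt_mx (L : ℕ) (F : ℕ → (ℕ → Fin 4) → ℕ) (z : ℕ → Fin 4) (j j' : ℕ) (hj : j ≤ L) (hj' : j' ≤ L)
    (hne : F j z ≠ F j' z) : mn L F z + 1 ≤ mx L F z := by
  unfold mn mx
  have a1 : (range (L + 1)).inf' (rng_ne L) (fun j => F j z) ≤ F j z :=
    Finset.inf'_le (fun j => F j z) (mem_range.mpr (by omega))
  have a2 : (range (L + 1)).inf' (rng_ne L) (fun j => F j z) ≤ F j' z :=
    Finset.inf'_le (fun j => F j z) (mem_range.mpr (by omega))
  have a3 : F j z ≤ (range (L + 1)).sup' (rng_ne L) (fun j => F j z) :=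
    Finset.le_sup' (fun j => F j z) (mem_range.mpr (by omega))
  have a4 : F j' z ≤ (range (L + 1)).sup' (rng_ne L) (fun j => F j z) :=
    Finset.le_sup' (fun j => F j z) (mem_range.mpr (by omega))
  omega

theorem mn_le_mx (L : ℕ) (F : ℕ → (ℕ → Fin 4) → ℕ) (z : ℕ → Fin 4) : mn L F z ≤ mx L F z := by
  unfold mn mx
  have a1 : (range (L + 1)).inf' (rng_ne L) (fun j => F j z) ≤ F 0 z :=
    Finset.inf'_le (fun j => F j z) (mem_range.mpr (by omega))
  have a3 : F 0 z ≤ (range (L + 1)).sup' (rng_ne L) (fun j => F j z) :=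
    Finset.le_sup' (fun j => F j z) (mem_range.mpr (by omega))
  omega

/-- expected minimum of a block functional -/
theorem expect_min {κ : Type*} [DecidableEq κ] (Y : Finset ℕ) (L : ℕ) (F : ℕ → (ℕ → Fin 4) → ℕ) (nst : ℕ)
    (hdep : ∀ j ≤ L, ∀ z z' : ℕ → Fin 4, (∀ y ∈ Y, z y = z' y) → F j z = F j z')
    (hrev : ∀ j ≤ L, ∀ z, F j z + F j (rv z) = nst)
    (J : Finset κ) (A : κ → Finset ℕ) (hA : ∀ i ∈ J, (A i).card = 4) (hAY : ∀ i ∈ J, A i ⊆ Y)
    (hd : ∀ i ∈ J, ∀ j ∈ J, i ≠ j → Disjoint (A i) (A j)) (cc : κ → ℕ → Fin 4)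
    (hne : ∀ i ∈ J, ∀ z : ℕ → Fin 4, (∀ a ∈ A i, z a = cc i a) → ∃ j ≤ L, ∃ j' ≤ L, F j z ≠ F j' z) :
    ∑ c : (Y → Fin 4), (mn L F (extY Y c) : ℝ)
      ≤ 4 ^ Y.card * ((nst : ℝ) / 2 - (1 - (255 / 256 : ℝ) ^ J.card) / 2) := by
  classical
  -- dependence of mn
  have hmn : ∀ z z' : ℕ → Fin 4, (∀ y ∈ Y, z y = z' y) → mn L F z = mn L F z' := by
    intro z z' h
    unfold mn
    apply Finset.inf'_congr (rng_ne L) rfl
    intro j hj
    exact hdep j (by rw [mem_range] at hj; omega) z z' h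
  let e : (Y → Fin 4) ≃ (Y → Fin 4) := Equiv.arrowCongr (Equiv.refl _) Fin.revPerm
  have he : ∀ c : (Y → Fin 4), mn L F (extY Y (e c)) = mn L F (rv (extY Y c)) := by
    intro c
    apply hmn
    intro y hy
    unfold extY rv
    rw [dif_pos hy]
    simp only [dif_pos hy]
    simp [e]
  have hsym : ∑ c : (Y → Fin 4), (mn L F (extY Y c) : ℝ)
      = ∑ c : (Y → Fin 4), ((nst : ℝ) - mx L F (extY Y c)) := by
    rw [← Equiv.sum_comp e]
    apply Finset.sum_congr rfl
    intro c _
    rw [he c]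
    have := mn_rv L F nst hrev (extY Y c)
    have : ((mn L F (rv (extY Y c)) + mx L F (extY Y c) : ℕ) : ℝ) = nst := by exact_mod_cast this
    push_cast at this
    linarith
  have hprod := sum_prod (ι := Y) J (fun i => univ.filter (fun x : Y => x.val ∈ A i)) 4
    (by
      intro i hi
      have : (univ.filter (fun x : Y => x.val ∈ A i)).map (Function.Embedding.subtype _) = A i := by
        ext x
        simp only [mem_map, mem_filter, mem_univ, true_and, Function.Embedding.coe_subtype]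
        constructor
        · rintro ⟨a, ha, rfl⟩
          exact ha
        · intro hx
          exact ⟨⟨x, hAY i hi hx⟩, hx, rfl⟩
      have h := congrArg Finset.card this
      rw [Finset.card_map, hA i hi] at h
      exact h)
    (by
      intro i hi j hj hij
      rw [Finset.disjoint_left]
      intro x hx hx'
      simp only [mem_filter, mem_univ, true_and] at hx hx'
      exact (Finset.disjoint_left.mp (hd i hi j hj hij)) hx hx')
    (fun i x => cc i x.val) (-1)
  have hpt : ∀ c : (Y → Fin 4), (mn L F (extY Y c) : ℝ) - mx L F (extY Y c)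
      ≤ -1 + ∏ i ∈ J, (1 + (-1) * (if ∀ a ∈ univ.filter (fun x : Y => x.val ∈ A i), c a = cc i a.val
        then (1 : ℝ) else 0)) := by
    intro c
    by_cases hex : ∃ i ∈ J, ∀ a ∈ univ.filter (fun x : Y => x.val ∈ A i), c a = cc i a.val
    · obtain ⟨i, hi, hc⟩ := hex
      have hz : ∏ i ∈ J, (1 + (-1) * (if ∀ a ∈ univ.filter (fun x : Y => x.val ∈ A i), c a = cc i a.val
        then (1 : ℝ) else 0)) = 0 := by
        apply Finset.prod_eq_zero hi
        rw [if_pos hc]; norm_num
      rw [hz]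
      obtain ⟨j, hj, j', hj', hne'⟩ := hne i hi (extY Y c) (by
        intro a ha
        unfold extY
        rw [dif_pos (hAY i hi ha)]
        exact hc ⟨a, hAY i hi ha⟩ (by simp [ha]))
      have := mn_lt_mx L F (extY Y c) j j' hj hj' hne'
      have : ((mn L F (extY Y c) + 1 : ℕ) : ℝ) ≤ mx L F (extY Y c) := by exact_mod_cast this
      push_cast at this
      linarith
    · push Not at hex
      have hz : ∏ i ∈ J, (1 + (-1) * (if ∀ a ∈ univ.filter (fun x : Y => x.val ∈ A i), c a = cc i a.val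
        then (1 : ℝ) else 0)) = 1 := by
        apply Finset.prod_eq_one
        intro i hi
        obtain ⟨a, ha, hca⟩ := hex i hi
        rw [if_neg (fun hh => hca (hh a ha))]
        norm_num
      rw [hz]
      have := mn_le_mx L F (extY Y c)
      have : (mn L F (extY Y c) : ℝ) ≤ mx L F (extY Y c) := by exact_mod_cast this
      linarith
  have h2 : 2 * ∑ c : (Y → Fin 4), (mn L F (extY Y c) : ℝ)
      ≤ 4 ^ Y.card * ((nst : ℝ) - 1 + (255 / 256 : ℝ) ^ J.card) := by
    calc 2 * ∑ c : (Y → Fin 4), (mn L F (extY Y c) : ℝ)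
        = ∑ c : (Y → Fin 4), (mn L F (extY Y c) : ℝ) + ∑ c : (Y → Fin 4), ((nst : ℝ) - mx L F (extY Y c)) := by
          rw [← hsym]; ring
      _ = ∑ c : (Y → Fin 4), ((nst : ℝ) + ((mn L F (extY Y c) : ℝ) - mx L F (extY Y c))) := by
          rw [← Finset.sum_add_distrib]
          apply Finset.sum_congr rfl
          intro c _; ring
      _ ≤ ∑ c : (Y → Fin 4), ((nst : ℝ) + (-1 + ∏ i ∈ J, (1 + (-1) * (if ∀ a ∈ univ.filter (fun x : Y => x.val ∈ A i), c a = cc i a.val
        then (1 : ℝ) else 0)))) := by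
          apply Finset.sum_le_sum
          intro c _
          have := hpt c
          linarith
      _ = ∑ c : (Y → Fin 4), ((nst : ℝ) - 1) + ∑ c : (Y → Fin 4), ∏ i ∈ J, (1 + (-1) * (if ∀ a ∈ univ.filter (fun x : Y => x.val ∈ A i), c a = cc i a.val
        then (1 : ℝ) else 0)) := by
          rw [← Finset.sum_add_distrib]
          apply Finset.sum_congr rfl
          intro c _; ring
      _ = 4 ^ Y.card * ((nst : ℝ) - 1) + 4 ^ Y.card * (255 / 256 : ℝ) ^ J.card := by
          have hp' : ∑ c : (Y → Fin 4), ∏ i ∈ J, (1 + (-1) * (if ∀ a ∈ univ.filter (fun x : Y => x.val ∈ A i), c a = cc i a.val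
            then (1 : ℝ) else 0)) = 4 ^ Fintype.card Y * (1 + (-1) / 4 ^ 4) ^ J.card := by
            convert hprod
          rw [hp', Finset.sum_const, card_univ, Fintype.card_fun, Fintype.card_coe, Fintype.card_fin,
                nsmul_eq_mul]
          norm_num
      _ = _ := by ring
  linarith

end Pool.Agent.H184R3.SP
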