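import Mathlib
import Pool.Agent.H184R3.SP.Block

set_option autoImplicit false
namespace Pool.Agent.H184R3.SP
open Finset

/-- sorting key of a letter -/
def key (N : ℕ) (g : ℕ → Fin 4) (x : ℕ) : ℕ := (g x).val * N + (if (g x).val < 2 then x else N - 1 - x)

theorem key_lt_of_des (N : ℕ) (g : ℕ → Fin 4) (x y : ℕ) (hx : x < N) (hy : y < N) (h : des g x y = 1) :
    key N g y < key N g x := by
  unfold des at h
  split_ifs at h with hc
  rcases hc with h1 | ⟨h1, h2⟩
  · have h1' : (g y).val < (g x).val := h1
    unfold key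
    have : (g y).val * N + N ≤ (g x).val * N := by
      have := Nat.mul_le_mul_right N (Nat.succ_le_of_lt h1')
      rw [Nat.succ_mul] at this
      exact this
    have e1 : (if (g y).val < 2 then y else N - 1 - y) < N := by split_ifs <;> omega
    omega
  · unfold key
    rw [← h1]
    rcases h2 with ⟨h2, h3⟩ | ⟨h2, h3⟩
    · rw [if_pos h2, if_pos h2]; omega
    · rw [if_neg (by omega), if_neg (by omega)]; omega

theorem key_lt_of_not_des (N : ℕ) (g : ℕ → Fin 4) (x y : ℕ) (hx : x < N) (hy : y < N) (hxy : x ≠ y)
    (h : des g x y = 0) : key N g x < key N g y := by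
  apply key_lt_of_des N g y x hy hx
  have h1 := des_rv g x y hxy
  unfold des at h ⊢
  split_ifs at h with hc
  rw [if_pos]
  push Not at hc
  obtain ⟨h2, h3⟩ := hc
  rcases lt_or_eq_of_le h2 with h4 | h4
  · left; exact h4
  · right
    refine ⟨h4.symm, ?_⟩
    have h5 := h3 h4
    rw [← h4]
    by_cases h6 : (g x).val < 2
    · left
      refine ⟨h6, ?_⟩
      have := h5.1 h6
      omega
    · right
      refine ⟨by omega, ?_⟩
      have := h5.2 (by omega)
      omega

/-- position of a letter in the sorted list -/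
def pos (N : ℕ) (g : ℕ → Fin 4) (x : ℕ) : ℕ := ((range N).filter (fun y => key N g y < key N g x)).card

theorem pos_lt_pos (N : ℕ) (g : ℕ → Fin 4) (x y : ℕ) (hx : x < N) (h : key N g x < key N g y) :
    pos N g x < pos N g y := by
  unfold pos
  apply Finset.card_lt_card
  rw [Finset.ssubset_iff_of_subset]
  · refine ⟨x, ?_, ?_⟩
    · rw [mem_filter, mem_range]; exact ⟨hx, h⟩
    · rw [mem_filter]; intro hh; exact lt_irrefl _ hh.2
  · intro a ha
    rw [mem_filter] at ha ⊢
    exact ⟨ha.1, ha.2.trans h⟩

theorem pos_lt (N : ℕ) (g : ℕ → Fin 4) (x : ℕ) (hx : x < N) : pos N g x < N := by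
  unfold pos
  calc _ < (range N).card := by
        apply Finset.card_lt_card
        rw [Finset.ssubset_iff_of_subset (filter_subset _ _)]
        refine ⟨x, mem_range.mpr hx, ?_⟩
        rw [mem_filter]; intro hh; exact lt_irrefl _ hh.2
    _ = N := card_range N

theorem pos_inj (N : ℕ) (g : ℕ → Fin 4) (x y : ℕ) (hx : x < N) (hy : y < N) (h : pos N g x = pos N g y) :
    x = y := by
  by_contra hxy
  have h1 := des_le_one g x y
  rcases Nat.lt_or_ge (des g x y) 1 with h2 | h2
  · have := pos_lt_pos N g x y hx (key_lt_of_not_des N g x y hx hy hxy (by omega))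
    omega
  · have := pos_lt_pos N g y x hy (key_lt_of_des N g x y hx hy (by omega))
    omega

open Classical in
noncomputable def letterAt (N : ℕ) (g : ℕ → Fin 4) (p : ℕ) : ℕ :=
  if h : ∃ x, x < N ∧ pos N g x = p then h.choose else 0

theorem letterAt_pos (N : ℕ) (g : ℕ → Fin 4) (x : ℕ) (hx : x < N) : letterAt N g (pos N g x) = x := by
  unfold letterAt
  have hex : ∃ x', x' < N ∧ pos N g x' = pos N g x := ⟨x, hx, rfl⟩
  rw [dif_pos hex]
  exact pos_inj N g _ _ hex.choose_spec.1 hx hex.choose_spec.2

theorem letterAt_lt (N : ℕ) (g : ℕ → Fin 4) (p : ℕ) (hN : 0 < N) : letterAt N g p < N := by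
  unfold letterAt
  split_ifs with h
  · exact h.choose_spec.1
  · exact hN

/-- the periodic word -/
noncomputable def word (N T : ℕ) (g : ℕ → Fin 4) : List ℕ :=
  (List.range (T * N)).map (fun idx => letterAt N g (idx % N))

theorem word_length (N T : ℕ) (g : ℕ → Fin 4) : (word N T g).length = T * N := by
  simp [word]

theorem word_lt (N T : ℕ) (g : ℕ → Fin 4) (hN : 0 < N) : ∀ x ∈ word N T g, x < N := by
  intro x hx
  unfold word at hx
  rw [List.mem_map] at hx
  obtain ⟨p, -, rfl⟩ := hx
  exact letterAt_lt N g _ hN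

theorem word_embed (N T : ℕ) (g : ℕ → Fin 4) (k : ℕ) (l : ℕ → ℕ) (hl : ∀ i < k, l i < N)
    (hne : ∀ i, i + 1 < k → l i ≠ l (i + 1))
    (hD : ∑ i ∈ range (k - 1), des g (l i) (l (i + 1)) < T) :
    ∃ e : Fin k → Fin (word N T g).length, StrictMono e ∧ ∀ i, (word N T g).get (e i) = l i := by
  let P : ℕ → ℕ := fun i => ∑ i' ∈ range i, des g (l i') (l (i' + 1))
  let E : ℕ → ℕ := fun i => P i * N + pos N g (l i)
  have hPT : ∀ i < k, P i < T := by
    intro i hi
    refine lt_of_le_of_lt ?_ hD
    apply Finset.sum_le_sum_of_subset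
    intro a ha
    rw [mem_range] at ha ⊢
    omega
  have hE : ∀ i < k, E i < T * N := by
    intro i hi
    have h1 := pos_lt N g (l i) (hl i hi)
    have h2 := Nat.mul_le_mul_right N (Nat.succ_le_of_lt (hPT i hi))
    rw [Nat.succ_mul] at h2
    simp only [E]
    omega
  have hstep : ∀ i, i + 1 < k → E i < E (i + 1) := by
    intro i hi
    have hP : P (i + 1) = P i + des g (l i) (l (i + 1)) := by
      simp only [P]
      rw [Finset.sum_range_succ]
    have h1 := des_le_one g (l i) (l (i + 1))
    have hp := pos_lt N g (l i) (hl i (by omega))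
    rcases Nat.lt_or_ge (des g (l i) (l (i + 1))) 1 with h2 | h2
    · have h3 := pos_lt_pos N g (l i) (l (i + 1)) (hl i (by omega))
        (key_lt_of_not_des N g _ _ (hl i (by omega)) (hl (i + 1) hi) (hne i hi) (by omega))
      simp only [E]
      rw [hP]
      have : des g (l i) (l (i + 1)) = 0 := by omega
      rw [this]
      simpa using h3
    · have : des g (l i) (l (i + 1)) = 1 := by omega
      simp only [E]
      rw [hP, this, Nat.add_mul]
      omega
  have hmono : ∀ j, j < k → ∀ i < j, E i < E j := by
    intro j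
    induction j with
    | zero => intro _ i hi; omega
    | succ j ih =>
      intro hj i hi
      rcases Nat.lt_or_ge i j with h | h
      · exact (ih (by omega) i h).trans (hstep j hj)
      · have : i = j := by omega
        subst this
        exact hstep i hj
  refine ⟨fun i => ⟨E i.val, by rw [word_length]; exact hE i.val i.2⟩, ?_, ?_⟩
  · intro a b hab
    exact hmono b.val b.2 a.val hab
  · intro i
    have hpl := pos_lt N g (l i.val) (hl i.val i.2)
    simp only [word, List.get_eq_getElem, List.getElem_map, List.getElem_range]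
    have : E i.val % N = pos N g (l i.val) := by
      simp only [E]
      rw [Nat.mul_comm, Nat.mul_add_mod]
      exact Nat.mod_eq_of_lt hpl
    rw [this]
    exact letterAt_pos N g _ (hl i.val i.2)

end Pool.Agent.H184R3.SP
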