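import Mathlib
import Pool.Agent.H184R3.SP.Word

set_option autoImplicit false
namespace Pool.Agent.H184R3.SP
open Finset

theorem greedy {α : Type*} [DecidableEq α] (V : Finset α) (C : α → Finset α)
    (hsymm : ∀ a ∈ V, ∀ b ∈ V, b ∈ C a → a ∈ C b) (d : ℕ) (hd : ∀ a ∈ V, (C a).card ≤ d) (n : ℕ)
    (hn : n * (d + 1) ≤ V.card) :
    ∃ J ⊆ V, J.card = n ∧ ∀ a ∈ J, ∀ b ∈ J, a ≠ b → b ∉ C a := by
  induction n with
  | zero => exact ⟨∅, by simp, by simp, by simp⟩
  | succ n ih =>
    obtain ⟨J, hJ, hc, hind⟩ := ih (le_trans (Nat.mul_le_mul_right _ (Nat.le_succ n)) hn)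
    have hcard : (J.biUnion (fun a => insert a (C a))).card < V.card := by
      have h1 := Finset.card_biUnion_le_card_mul J (fun a => insert a (C a)) (d + 1) (by
        intro a ha
        have h2 := Finset.card_insert_le a (C a)
        have h3 := hd a (hJ ha)
        show (insert a (C a)).card ≤ d + 1
        omega)
      rw [hc] at h1
      have : n * (d + 1) + (d + 1) ≤ V.card := by rw [← Nat.succ_mul]; exact hn
      omega
    have hex : ∃ a ∈ V, a ∉ J.biUnion (fun a => insert a (C a)) := by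
      by_contra hcon
      push Not at hcon
      have : V ⊆ J.biUnion (fun a => insert a (C a)) := fun a ha => hcon a ha
      have := Finset.card_le_card this
      omega
    obtain ⟨a, haV, ha⟩ := hex
    have ha' : ∀ b ∈ J, a ≠ b ∧ a ∉ C b := by
      intro b hb
      constructor
      · intro hab
        subst hab
        exact ha (mem_biUnion.mpr ⟨a, hb, mem_insert_self _ _⟩)
      · intro hab
        exact ha (mem_biUnion.mpr ⟨b, hb, mem_insert_of_mem hab⟩)
    have haJ : a ∉ J := fun h => (ha' a h).1 rfl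
    refine ⟨insert a J, insert_subset haV hJ, by rw [card_insert_of_notMem haJ, hc], ?_⟩
    intro x hx y hy hxy
    rw [mem_insert] at hx hy
    rcases hx with rfl | hx
    · rcases hy with rfl | hy
      · exact absurd rfl hxy
      · intro hyx
        exact (ha' y hy).2 (hsymm x haV y (hJ hy) hyx)
    · rcases hy with rfl | hy
      · exact (ha' x hx).2
      · exact hind x hx y hy hxy

/-- hypotheses on a pattern -/
structure Pat (k : ℕ) (s : ℕ → ℕ) : Prop where
  lt : ∀ i < k, s i < k
  inj : ∀ i < k, ∀ j < k, s i = s j → i = j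
  surj : ∀ t < k, ∃ i < k, s i = t

/-- steps touching block b -/
def St (k L : ℕ) (s : ℕ → ℕ) (b : ℕ) : Finset ℕ :=
  (range (k - 1)).filter (fun i => s i / L = b ∨ s (i + 1) / L = b)

theorem card_block_le (k L : ℕ) (hL : 0 < L) (s : ℕ → ℕ) (hs : Pat k s) (b a : ℕ) (ha : a ≤ 1) :
    ((range (k - 1)).filter (fun i => s (i + a) / L = b)).card ≤ L := by
  have h1 : ((range (k - 1)).filter (fun i => s (i + a) / L = b)).card
      ≤ (Finset.Ico (b * L) (b * L + L)).card := by
    apply Finset.card_le_card_of_injOn (fun i => s (i + a))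
    · intro i hi
      rw [Finset.mem_coe, mem_filter, mem_range] at hi
      rw [Finset.mem_coe, Finset.mem_Ico]
      have h := (Nat.div_eq_iff hL).mp hi.2
      constructor
      · exact h.1
      · show s (i + a) < b * L + L
        have := h.2
        omega
    · intro i hi j hj hij
      rw [Finset.mem_coe, mem_filter, mem_range] at hi hj
      have := hs.inj (i + a) (by omega) (j + a) (by omega) hij
      omega
  simpa using h1

theorem card_St_le (k L : ℕ) (hL : 0 < L) (s : ℕ → ℕ) (hs : Pat k s) (b : ℕ) :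
    (St k L s b).card ≤ 2 * L := by
  unfold St
  rw [Finset.filter_or]
  have h1 := card_block_le k L hL s hs b 0 (by omega)
  have h2 := card_block_le k L hL s hs b 1 (by omega)
  have := Finset.card_union_le ((range (k - 1)).filter (fun i => s i / L = b))
    ((range (k - 1)).filter (fun i => s (i + 1) / L = b))
  simp only [add_zero] at h1
  omega

/-- independent blocks -/
theorem exists_blocks (k L Q : ℕ) (hL : 0 < L) (s : ℕ → ℕ) (hs : Pat k s) (hQ : Q * (2 * L + 1) ≤ k / L) :
    ∃ B : Finset ℕ, B ⊆ range (k / L) ∧ B.card = Q ∧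
      ∀ i, i + 1 < k → s i / L ∈ B → s (i + 1) / L ∈ B → s i / L = s (i + 1) / L := by
  let C : ℕ → Finset ℕ := fun b =>
    ((range (k - 1)).filter (fun i => s i / L = b)).image (fun i => s (i + 1) / L) ∪
    ((range (k - 1)).filter (fun i => s (i + 1) / L = b)).image (fun i => s i / L)
  have hmem : ∀ a b, b ∈ C a ↔ ∃ i ∈ range (k - 1), (s i / L = a ∧ s (i + 1) / L = b) ∨
      (s (i + 1) / L = a ∧ s i / L = b) := by
    intro a b
    simp only [C, mem_union, mem_image, mem_filter]
    constructor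
    · rintro (⟨i, ⟨h1, h2⟩, h3⟩ | ⟨i, ⟨h1, h2⟩, h3⟩)
      · exact ⟨i, h1, Or.inl ⟨h2, h3⟩⟩
      · exact ⟨i, h1, Or.inr ⟨h2, h3⟩⟩
    · rintro ⟨i, h1, (⟨h2, h3⟩ | ⟨h2, h3⟩)⟩
      · exact Or.inl ⟨i, ⟨h1, h2⟩, h3⟩
      · exact Or.inr ⟨i, ⟨h1, h2⟩, h3⟩
  obtain ⟨J, hJ, hJc, hind⟩ := greedy (range (k / L)) C
    (by
      intro a _ b _ hab
      rw [hmem] at hab ⊢
      obtain ⟨i, hi, h | h⟩ := hab
      · exact ⟨i, hi, Or.inr ⟨h.2, h.1⟩⟩
      · exact ⟨i, hi, Or.inl ⟨h.2, h.1⟩⟩) (2 * L)
    (by
      intro a _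
      have h1 := card_block_le k L hL s hs a 0 (by omega)
      have h2 := card_block_le k L hL s hs a 1 (by omega)
      simp only [add_zero] at h1
      calc (C a).card ≤ _ := Finset.card_union_le _ _
        _ ≤ ((range (k - 1)).filter (fun i => s i / L = a)).card
            + ((range (k - 1)).filter (fun i => s (i + 1) / L = a)).card :=
          Nat.add_le_add Finset.card_image_le Finset.card_image_le
        _ ≤ 2 * L := by omega) Q (by rw [card_range]; exact hQ)
  refine ⟨J, hJ, hJc, ?_⟩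
  intro i hi h1 h2
  by_contra hne
  exact hind _ h1 _ h2 hne ((hmem _ _).mpr ⟨i, mem_range.mpr (by omega), Or.inl ⟨rfl, rfl⟩⟩)

/-- times in block b, with both neighbours; index i stands for the centre i+1 -/
def V (k L : ℕ) (s : ℕ → ℕ) (b : ℕ) : Finset ℕ := (range (k - 2)).filter (fun i => s (i + 1) / L = b)

theorem card_V_ge (k L : ℕ) (hL : 0 < L) (s : ℕ → ℕ) (hs : Pat k s) (b : ℕ) (hb : b < k / L) :
    L ≤ (V k L s b).card + 2 := by
  have hk : b * L + L ≤ k := by
    have h1 : (b + 1) * L ≤ (k / L) * L := Nat.mul_le_mul_right L hb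
    have h2 := Nat.div_mul_le_self k L
    rw [Nat.succ_mul] at h1
    omega
  have h1 : Finset.Ico (b * L) (b * L + L) ⊆ (insert 0 (insert (k - 1) ((V k L s b).image (fun i => i + 1)))).image s := by
    intro t ht
    rw [Finset.mem_Ico] at ht
    obtain ⟨i, hi, hit⟩ := hs.surj t (by omega)
    rw [mem_image]
    refine ⟨i, ?_, hit⟩
    rw [mem_insert, mem_insert, mem_image]
    by_cases h0 : i = 0
    · left; exact h0
    · right
      by_cases hk1 : i = k - 1
      · left; exact hk1
      · right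
        refine ⟨i - 1, ?_, by omega⟩
        unfold V
        rw [mem_filter, mem_range]
        refine ⟨by omega, ?_⟩
        have : i - 1 + 1 = i := by omega
        rw [this, hit]
        rw [Nat.div_eq_iff hL]
        omega
  have h2 := Finset.card_le_card h1
  have h3 := (Finset.card_image_le (s := insert 0 (insert (k - 1) ((V k L s b).image (fun i => i + 1)))) (f := s))
  have h4 := Finset.card_insert_le 0 (insert (k - 1) ((V k L s b).image (fun i => i + 1)))
  have h5 := Finset.card_insert_le (k - 1) ((V k L s b).image (fun i => i + 1))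
  have h6 := (Finset.card_image_le (s := V k L s b) (f := fun i => i + 1))
  have h7 : (Finset.Ico (b * L) (b * L + L)).card = L := by simp
  omega

/-- well separated centres -/
theorem exists_centres (k L r : ℕ) (hL : 0 < L) (s : ℕ → ℕ) (hs : Pat k s) (b : ℕ) (hb : b < k / L)
    (hr : r * 28 + 2 ≤ L) :
    ∃ J ⊆ V k L s b, J.card = r ∧ ∀ i ∈ J, ∀ i' ∈ J, i ≠ i' → ∀ d < 3, ∀ d' < 3,
      s (i + d) + 2 ≤ s (i' + d') ∨ s (i' + d') + 2 ≤ s (i + d) := by
  classical
  let C : ℕ → Finset ℕ := fun i => (range (k - 2)).filter (fun i' => ∃ d < 3, ∃ d' < 3,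
    s (i + d) ≤ s (i' + d') + 1 ∧ s (i' + d') ≤ s (i + d) + 1)
  have hVC : ∀ i, i ∈ V k L s b → i ∈ range (k - 2) := fun i hi => (mem_filter.mp hi).1
  have hV := card_V_ge k L hL s hs b hb
  obtain ⟨J, hJ, hJc, hind⟩ := greedy (V k L s b) C
    (by
      intro a ha c hc hac
      simp only [C, mem_filter] at hac ⊢
      obtain ⟨-, d, hd, d', hd', h1, h2⟩ := hac
      exact ⟨hVC a ha, d', hd', d, hd, h2, h1⟩) 27
    (by
      intro a ha
      have hsub : C a ⊆ (range 3 ×ˢ (range 3 ×ˢ range 3)).biUnion (fun p => (range (k - 2)).filter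
          (fun i' => s (i' + p.2.1) + 1 = s (a + p.1) + p.2.2)) := by
        intro i' hi'
        simp only [C, mem_filter] at hi'
        obtain ⟨hr', d, hd, d', hd', h1, h2⟩ := hi'
        rw [mem_biUnion]
        refine ⟨(d, (d', s (i' + d') + 1 - s (a + d))), ?_, ?_⟩
        · rw [mem_product, mem_product, mem_range, mem_range, mem_range]
          refine ⟨hd, hd', ?_⟩
          show s (i' + d') + 1 - s (a + d) < 3
          omega
        · rw [mem_filter]
          refine ⟨hr', ?_⟩
          show s (i' + d') + 1 = s (a + d) + (s (i' + d') + 1 - s (a + d))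
          omega
      have h2 := Finset.card_biUnion_le_card_mul (range 3 ×ˢ (range 3 ×ˢ range 3)) (fun p => (range (k - 2)).filter
          (fun i' => s (i' + p.2.1) + 1 = s (a + p.1) + p.2.2)) 1 (by
        intro p hp
        rw [mem_product, mem_product, mem_range, mem_range, mem_range] at hp
        rw [Finset.card_le_one]
        intro x hx y hy
        rw [mem_filter, mem_range] at hx hy
        have := hs.inj (x + p.2.1) (by omega) (y + p.2.1) (by omega) (by omega)
        omega)
      calc (C a).card ≤ _ := Finset.card_le_card hsub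
        _ ≤ _ := h2
        _ = 27 := by simp) r (by omega)
  refine ⟨J, hJ, hJc, ?_⟩
  intro i hi i' hi' hne d hd d' hd'
  by_contra hcon
  push Not at hcon
  apply hind i hi i' hi' hne
  simp only [C, mem_filter]
  exact ⟨hVC i' (hJ hi'), d, hd, d', hd', by omega, by omega⟩

/-- base letters -/
def base (L : ℕ) (B : Finset ℕ) (t : ℕ) : ℕ := t + (B.filter (fun b => b < t / L)).card

theorem base_lt (L : ℕ) (B : Finset ℕ) (t t' : ℕ) (h : t < t') : base L B t + (t' - t) ≤ base L B t' := by
  unfold base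
  have h1 : (B.filter (fun b => b < t / L)).card ≤ (B.filter (fun b => b < t' / L)).card := by
    apply Finset.card_le_card
    intro b hb
    rw [mem_filter] at hb ⊢
    exact ⟨hb.1, lt_of_lt_of_le hb.2 (Nat.div_le_div_right h.le)⟩
  omega

theorem base_lt' (L : ℕ) (B : Finset ℕ) (t t' : ℕ) (h : t / L < t' / L) (hB : t / L ∈ B) :
    base L B t + 2 ≤ base L B t' := by
  unfold base
  have htt : t < t' := by
    by_contra hh
    push Not at hh
    have := Nat.div_le_div_right (c := L) hh
    omega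
  have h1 : (B.filter (fun b => b < t / L)).card < (B.filter (fun b => b < t' / L)).card := by
    apply Finset.card_lt_card
    rw [Finset.ssubset_iff_of_subset]
    · refine ⟨t / L, mem_filter.mpr ⟨hB, h⟩, ?_⟩
      rw [mem_filter]
      intro hh; exact lt_irrefl _ hh.2
    · intro b hb
      rw [mem_filter] at hb ⊢
      exact ⟨hb.1, hb.2.trans h⟩
  omega

/-- letters with jumps -/
def mu (L : ℕ) (B : Finset ℕ) (Jf : ℕ → ℕ) (t : ℕ) : ℕ :=
  base L B t + (if t / L ∈ B ∧ Jf (t / L) ≤ t % L then 1 else 0)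

theorem mu_lt (L : ℕ) (B : Finset ℕ) (Jf : ℕ → ℕ) (t t' : ℕ) (h : t < t') :
    mu L B Jf t < mu L B Jf t' := by
  unfold mu
  have h1 := base_lt L B t t' h
  rcases Nat.lt_or_ge (t / L) (t' / L) with h2 | h2
  · by_cases hB : t / L ∈ B
    · have h3 := base_lt' L B t t' h2 hB
      split_ifs <;> omega
    · have : ¬ (t / L ∈ B ∧ Jf (t / L) ≤ t % L) := fun hh => hB hh.1
      rw [if_neg this]
      omega
  · have h3 : t / L = t' / L := le_antisymm (Nat.div_le_div_right h.le) h2
    have h4 : t % L ≤ t' % L := by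
      have e1 := Nat.div_add_mod t L
      have e2 := Nat.div_add_mod t' L
      rw [h3] at e1
      omega
    rw [h3]
    by_cases hc : t' / L ∈ B ∧ Jf (t' / L) ≤ t % L
    · rw [if_pos hc, if_pos ⟨hc.1, hc.2.trans h4⟩]; omega
    · rw [if_neg hc]; omega

theorem base_le (L : ℕ) (B : Finset ℕ) (t : ℕ) : base L B t ≤ t + B.card := by
  unfold base
  have := Finset.card_le_card (Finset.filter_subset (fun b => b < t / L) B)
  omega

theorem mu_le (L : ℕ) (B : Finset ℕ) (Jf : ℕ → ℕ) (t : ℕ) : mu L B Jf t ≤ t + B.card := by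
  unfold mu
  by_cases hB : t / L ∈ B
  · have h1 : (B.filter (fun b => b < t / L)).card < B.card := by
      apply Finset.card_lt_card
      rw [Finset.ssubset_iff_of_subset (filter_subset _ _)]
      refine ⟨t / L, hB, ?_⟩
      rw [mem_filter]
      intro hh; exact lt_irrefl _ hh.2
    unfold base
    split_ifs <;> omega
  · have : ¬ (t / L ∈ B ∧ Jf (t / L) ≤ t % L) := fun hh => hB hh.1
    rw [if_neg this]
    have := base_le L B t
    omega

/-- letters when only block b is considered -/
def nu (L : ℕ) (B : Finset ℕ) (b j : ℕ) (t : ℕ) : ℕ :=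
  base L B t + (if t / L = b ∧ j ≤ t % L then 1 else 0)

theorem nu_inj (L : ℕ) (B : Finset ℕ) (b j : ℕ) (hb : b ∈ B) (t t' : ℕ) (h : t ≠ t') :
    nu L B b j t ≠ nu L B b j t' := by
  have key : ∀ t t', t < t' → nu L B b j t < nu L B b j t' := by
    intro t t' h
    unfold nu
    have h1 := base_lt L B t t' h
    rcases Nat.lt_or_ge (t / L) (t' / L) with h2 | h2
    · by_cases hB : t / L = b
      · have h3 := base_lt' L B t t' h2 (by rw [hB]; exact hb)
        split_ifs <;> omega
      · have : ¬ (t / L = b ∧ j ≤ t % L) := fun hh => hB hh.1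
        rw [if_neg this]
        omega
    · have h3 : t / L = t' / L := le_antisymm (Nat.div_le_div_right h.le) h2
      have h4 : t % L ≤ t' % L := by
        have e1 := Nat.div_add_mod t L
        have e2 := Nat.div_add_mod t' L
        rw [h3] at e1
        omega
      rw [h3]
      by_cases hc : t' / L = b ∧ j ≤ t % L
      · rw [if_pos hc, if_pos ⟨hc.1, hc.2.trans h4⟩]; omega
      · rw [if_neg hc]; omega
  rcases lt_or_gt_of_ne h with h1 | h1
  · exact (key t t' h1).ne
  · exact (key t' t h1).ne'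

/-- block functional -/
def Fb (k L : ℕ) (s : ℕ → ℕ) (B : Finset ℕ) (b : ℕ) (j : ℕ) (z : ℕ → Fin 4) : ℕ :=
  ∑ i ∈ St k L s b, des z (nu L B b j (s i)) (nu L B b j (s (i + 1)))

/-- relevant letters -/
def Yb (k L : ℕ) (s : ℕ → ℕ) (B : Finset ℕ) (b : ℕ) : Finset ℕ :=
  (St k L s b).biUnion (fun i => {base L B (s i), base L B (s i) + 1, base L B (s (i + 1)),
    base L B (s (i + 1)) + 1})

theorem card_Yb_le (k L : ℕ) (hL : 0 < L) (s : ℕ → ℕ) (hs : Pat k s) (B : Finset ℕ) (b : ℕ) :
    (Yb k L s B b).card ≤ 8 * L := by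
  unfold Yb
  have h1 := Finset.card_biUnion_le_card_mul (St k L s b)
    (fun i => ({base L B (s i), base L B (s i) + 1, base L B (s (i + 1)),
    base L B (s (i + 1)) + 1} : Finset ℕ)) 4 (fun i _ => Finset.card_le_four)
  have h2 := card_St_le k L hL s hs b
  calc _ ≤ _ := h1
    _ ≤ 2 * L * 4 := Nat.mul_le_mul_right 4 h2
    _ = 8 * L := by ring

theorem Yb_lt (k L : ℕ) (s : ℕ → ℕ) (hs : Pat k s) (B : Finset ℕ) (b : ℕ) :
    ∀ x ∈ Yb k L s B b, x < k + B.card + 1 := by
  intro x hx
  unfold Yb at hx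
  rw [mem_biUnion] at hx
  obtain ⟨i, hi, hx⟩ := hx
  unfold St at hi
  rw [mem_filter, mem_range] at hi
  have h1 := hs.lt i (by omega)
  have h2 := hs.lt (i + 1) (by omega)
  have h3 := base_le L B (s i)
  have h4 := base_le L B (s (i + 1))
  simp only [mem_insert, mem_singleton] at hx
  omega

theorem nu_mem (L : ℕ) (B : Finset ℕ) (b j t : ℕ) : nu L B b j t = base L B t ∨ nu L B b j t = base L B t + 1 := by
  unfold nu; split_ifs <;> omega

theorem nu_mem_Yb (k L : ℕ) (s : ℕ → ℕ) (B : Finset ℕ) (b j i : ℕ) (hi : i ∈ St k L s b) :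
    nu L B b j (s i) ∈ Yb k L s B b ∧ nu L B b j (s (i + 1)) ∈ Yb k L s B b := by
  unfold Yb
  simp only [mem_biUnion, mem_insert, mem_singleton]
  constructor
  · refine ⟨i, hi, ?_⟩
    rcases nu_mem L B b j (s i) with h | h <;> rw [h] <;> simp
  · refine ⟨i, hi, ?_⟩
    rcases nu_mem L B b j (s (i + 1)) with h | h <;> rw [h] <;> simp

theorem Fb_dep (k L : ℕ) (s : ℕ → ℕ) (B : Finset ℕ) (b j : ℕ) (z z' : ℕ → Fin 4)
    (h : ∀ y ∈ Yb k L s B b, z y = z' y) : Fb k L s B b j z = Fb k L s B b j z' := by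
  unfold Fb
  apply Finset.sum_congr rfl
  intro i hi
  have := nu_mem_Yb k L s B b j i hi
  exact des_congr z z' _ _ (h _ this.1) (h _ this.2)

theorem Fb_rev (k L : ℕ) (s : ℕ → ℕ) (hs : Pat k s) (B : Finset ℕ) (b j : ℕ) (hb : b ∈ B) (z : ℕ → Fin 4) :
    Fb k L s B b j z + Fb k L s B b j (rv z) = (St k L s b).card := by
  unfold Fb
  rw [← Finset.sum_add_distrib, Finset.card_eq_sum_ones]
  apply Finset.sum_congr rfl
  intro i hi
  apply des_rv
  apply nu_inj L B b j hb
  intro hh
  unfold St at hi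
  rw [mem_filter, mem_range] at hi
  have := hs.inj i (by omega) (i + 1) (by omega) hh
  omega

theorem Fb_le (k L : ℕ) (s : ℕ → ℕ) (B : Finset ℕ) (b j : ℕ) (z : ℕ → Fin 4) :
    Fb k L s B b j z ≤ (St k L s b).card := by
  unfold Fb
  rw [Finset.card_eq_sum_ones]
  exact Finset.sum_le_sum (fun i _ => des_le_one _ _ _)

end Pool.Agent.H184R3.SP
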