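import Mathlib
import Pool.Agent.H184R3.SP.Pattern

set_option autoImplicit false
namespace Pool.Agent.H184R3.SP
open Finset

def Aset (L : ℕ) (s : ℕ → ℕ) (B : Finset ℕ) (b i : ℕ) : Finset ℕ :=
  {nu L B b (s (i + 1) % L) (s i), base L B (s (i + 1)), base L B (s (i + 1)) + 1,
    nu L B b (s (i + 1) % L) (s (i + 2))}

def cc (L : ℕ) (s : ℕ → ℕ) (B : Finset ℕ) (b i : ℕ) (x : ℕ) : Fin 4 :=
  if x = nu L B b (s (i + 1) % L) (s i) then 0
  else if x = base L B (s (i + 1)) then 1
  else if x = base L B (s (i + 1)) + 1 then 3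
  else 2

theorem nu_self0 (L : ℕ) (B : Finset ℕ) (b t : ℕ) (ht : t / L = b) : nu L B b (t % L) t = base L B t + 1 := by
  unfold nu; rw [if_pos ⟨ht, le_refl _⟩]

theorem nu_self1 (L : ℕ) (B : Finset ℕ) (b t : ℕ) : nu L B b (t % L + 1) t = base L B t := by
  unfold nu; rw [if_neg (by omega)]; omega

theorem nu_other (L : ℕ) (B : Finset ℕ) (b t u : ℕ) (ht : t / L = b) (hu : u ≠ t) :
    nu L B b (t % L) u = nu L B b (t % L + 1) u := by
  unfold nu
  by_cases hb : u / L = b
  · have hne : u % L ≠ t % L := by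
      intro h
      apply hu
      rw [← Nat.div_add_mod u L, ← Nat.div_add_mod t L, h, hb, ht]
    by_cases hc : t % L ≤ u % L
    · rw [if_pos ⟨hb, hc⟩, if_pos ⟨hb, by omega⟩]
    · rw [if_neg (by omega), if_neg (by omega)]
  · rw [if_neg (fun h => hb h.1), if_neg (fun h => hb h.1)]

section
variable (k L : ℕ) (s : ℕ → ℕ) (hs : Pat k s) (B : Finset ℕ) (b : ℕ) (hb : b ∈ B) (i : ℕ)
  (hi : i ∈ V k L s b)
include hs hb hi

set_option linter.unusedSectionVars false in
theorem facts : i + 2 < k ∧ s (i + 1) / L = b ∧ s i ≠ s (i + 1) ∧ s (i + 2) ≠ s (i + 1) ∧ s i ≠ s (i + 2) := by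
  unfold V at hi
  rw [mem_filter, mem_range] at hi
  have hk : i + 2 < k := by omega
  refine ⟨hk, hi.2, ?_, ?_, ?_⟩
  · intro h
    have := hs.inj i (by omega) (i + 1) (by omega) h
    omega
  · intro h
    have := hs.inj (i + 2) (by omega) (i + 1) (by omega) h
    omega
  · intro h
    have := hs.inj i (by omega) (i + 2) (by omega) h
    omega

theorem facts2 : nu L B b (s (i + 1) % L) (s i) ≠ base L B (s (i + 1)) ∧
    nu L B b (s (i + 1) % L) (s i) ≠ base L B (s (i + 1)) + 1 ∧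
    nu L B b (s (i + 1) % L) (s i) ≠ nu L B b (s (i + 1) % L) (s (i + 2)) ∧
    nu L B b (s (i + 1) % L) (s (i + 2)) ≠ base L B (s (i + 1)) ∧
    nu L B b (s (i + 1) % L) (s (i + 2)) ≠ base L B (s (i + 1)) + 1 := by
  obtain ⟨hk, ht, h1, h2, h3⟩ := facts k L s hs B b hb i hi
  refine ⟨?_, ?_, ?_, ?_, ?_⟩
  · rw [nu_other L B b _ _ ht h1]
    have := nu_inj L B b (s (i + 1) % L + 1) hb _ _ h1
    rw [nu_self1] at this
    exact this
  · have := nu_inj L B b (s (i + 1) % L) hb _ _ h1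
    rw [nu_self0 L B b _ ht] at this
    exact this
  · exact nu_inj L B b (s (i + 1) % L) hb _ _ h3
  · rw [nu_other L B b _ _ ht h2]
    have := nu_inj L B b (s (i + 1) % L + 1) hb _ _ h2
    rw [nu_self1] at this
    exact this
  · have := nu_inj L B b (s (i + 1) % L) hb _ _ h2
    rw [nu_self0 L B b _ ht] at this
    exact this

theorem card_Aset : (Aset L s B b i).card = 4 := by
  obtain ⟨h1, h2, h3, h4, h5⟩ := facts2 k L s hs B b hb i hi
  unfold Aset
  rw [Finset.card_insert_of_notMem, Finset.card_insert_of_notMem, Finset.card_insert_of_notMem, Finset.card_singleton]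
  · simp only [mem_singleton]
    exact fun h => h5 h.symm
  · simp only [mem_insert, mem_singleton]
    rintro (h | h)
    · omega
    · exact h4 h.symm
  · simp only [mem_insert, mem_singleton]
    rintro (h | h | h)
    · exact h1 h
    · exact h2 h
    · exact h3 h

theorem Aset_sub : Aset L s B b i ⊆ Yb k L s B b := by
  obtain ⟨hk, ht, -⟩ := facts k L s hs B b hb i hi
  have m1 : i ∈ St k L s b := by
    unfold St; rw [mem_filter, mem_range]; exact ⟨by omega, Or.inr ht⟩
  have m2 : i + 1 ∈ St k L s b := by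
    unfold St; rw [mem_filter, mem_range]; exact ⟨by omega, Or.inl ht⟩
  intro x hx
  unfold Aset at hx
  simp only [mem_insert, mem_singleton] at hx
  rcases hx with rfl | rfl | rfl | rfl
  · exact (nu_mem_Yb k L s B b _ i m1).1
  · rw [← nu_self1 L B b]
    exact (nu_mem_Yb k L s B b _ (i + 1) m2).1
  · rw [← nu_self0 L B b _ ht]
    exact (nu_mem_Yb k L s B b _ (i + 1) m2).1
  · exact (nu_mem_Yb k L s B b _ (i + 1) m2).2

theorem event (z : ℕ → Fin 4) (hz : ∀ a ∈ Aset L s B b i, z a = cc L s B b i a) :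
    Fb k L s B b (s (i + 1) % L + 1) z ≠ Fb k L s B b (s (i + 1) % L) z := by
  obtain ⟨h1, h2, h3, h4, h5⟩ := facts2 k L s hs B b hb i hi
  obtain ⟨hk, ht, n1, n2, n3⟩ := facts k L s hs B b hb i hi
  have z1 : z (nu L B b (s (i + 1) % L) (s i)) = 0 := by
    rw [hz _ (by unfold Aset; simp)]
    unfold cc; rw [if_pos rfl]
  have z2 : z (base L B (s (i + 1))) = 1 := by
    rw [hz _ (by unfold Aset; simp)]
    unfold cc; rw [if_neg (fun h => h1 h.symm), if_pos rfl]
  have z3 : z (base L B (s (i + 1)) + 1) = 3 := by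
    rw [hz _ (by unfold Aset; simp)]
    unfold cc; rw [if_neg (fun h => h2 h.symm), if_neg (by omega), if_pos rfl]
  have z4 : z (nu L B b (s (i + 1) % L) (s (i + 2))) = 2 := by
    rw [hz _ (by unfold Aset; simp)]
    unfold cc; rw [if_neg (fun h => h3 h.symm), if_neg h4, if_neg h5]
  have m2 : i + 1 ∈ St k L s b := by
    unfold St; rw [mem_filter, mem_range]; exact ⟨by omega, Or.inl ht⟩
  apply ne_of_lt
  unfold Fb
  apply Finset.sum_lt_sum
  · intro i' hi'
    unfold St at hi'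
    rw [mem_filter, mem_range] at hi'
    by_cases e1 : i' = i
    · subst e1
      rw [nu_self1]
      rw [← nu_other L B b _ _ ht n1]
      have : des z (nu L B b (s (i' + 1) % L) (s i')) (base L B (s (i' + 1))) = 0 := by
        unfold des
        rw [z1, z2]
        simp
      omega
    · by_cases e2 : i' = i + 1
      · subst e2
        rw [nu_self1, nu_self0 L B b _ ht, ← nu_other L B b _ _ ht n2]
        have : des z (base L B (s (i + 1))) (nu L B b (s (i + 1) % L) (s (i + 2))) = 0 := by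
          unfold des
          rw [z2, z4]
          simp
        rw [this]
        exact Nat.zero_le _
      · have a1 : s i' ≠ s (i + 1) := by
          intro h
          exact e2 (hs.inj i' (by omega) (i + 1) (by omega) h)
        have a2 : s (i' + 1) ≠ s (i + 1) := by
          intro h
          have := hs.inj (i' + 1) (by omega) (i + 1) (by omega) h
          omega
        rw [nu_other L B b _ _ ht a1, nu_other L B b _ _ ht a2]
  · refine ⟨i + 1, m2, ?_⟩
    rw [nu_self1, nu_self0 L B b _ ht, ← nu_other L B b _ _ ht n2]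
    have e0 : des z (base L B (s (i + 1))) (nu L B b (s (i + 1) % L) (s (i + 2))) = 0 := by
      unfold des
      rw [z2, z4]
      simp
    have e1 : des z (base L B (s (i + 1)) + 1) (nu L B b (s (i + 1) % L) (s (i + 2))) = 1 := by
      unfold des
      rw [z3, z4]
      simp
    rw [e0, e1]
    exact Nat.zero_lt_one

end

theorem Aset_mem (L : ℕ) (s : ℕ → ℕ) (B : Finset ℕ) (b i x : ℕ) (hx : x ∈ Aset L s B b i) :
    ∃ d < 3, x = base L B (s (i + d)) ∨ x = base L B (s (i + d)) + 1 := by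
  unfold Aset at hx
  simp only [mem_insert, mem_singleton] at hx
  rcases hx with rfl | rfl | rfl | rfl
  · exact ⟨0, by omega, nu_mem _ _ _ _ _⟩
  · exact ⟨1, by omega, Or.inl rfl⟩
  · exact ⟨1, by omega, Or.inr rfl⟩
  · exact ⟨2, by omega, nu_mem _ _ _ _ _⟩

theorem Aset_disj (L : ℕ) (s : ℕ → ℕ) (B : Finset ℕ) (b i i' : ℕ)
    (h : ∀ d < 3, ∀ d' < 3, s (i + d) + 2 ≤ s (i' + d') ∨ s (i' + d') + 2 ≤ s (i + d)) :
    Disjoint (Aset L s B b i) (Aset L s B b i') := by
  rw [Finset.disjoint_left]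
  intro x hx hx'
  obtain ⟨d, hd, h1⟩ := Aset_mem L s B b i x hx
  obtain ⟨d', hd', h2⟩ := Aset_mem L s B b i' x hx'
  rcases h d hd d' hd' with h3 | h3
  · have := base_lt L B (s (i + d)) (s (i' + d')) (by omega)
    omega
  · have := base_lt L B (s (i' + d')) (s (i + d)) (by omega)
    omega

/-- combination of averaging and expectation -/
theorem avg_expect {κ : Type*} [DecidableEq κ] (h n R : ℕ) (ε : ℝ) (hε : 0 < ε) (hR : h ≤ R) (g : ℕ → Fin 4)
    (hg : ∀ Y ∈ (range R).powersetCard h, ∀ c : Y → Fin 4,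
        (((range n).filter (fun i => ∀ y ∈ Y, g (y + sid n i) = extY Y c y)).card : ℝ)
          ≤ (1 / 4 ^ h + ε) * n)
    (Y0 : Finset ℕ) (hY0 : ∀ y ∈ Y0, y < R) (hY0c : Y0.card ≤ h)
    (L : ℕ) (F : ℕ → (ℕ → Fin 4) → ℕ) (nst : ℕ)
    (hdep : ∀ j ≤ L, ∀ z z' : ℕ → Fin 4, (∀ y ∈ Y0, z y = z' y) → F j z = F j z')
    (hrev : ∀ j ≤ L, ∀ z, F j z + F j (rv z) = nst)
    (J : Finset κ) (A : κ → Finset ℕ) (hA : ∀ i ∈ J, (A i).card = 4) (hAY : ∀ i ∈ J, A i ⊆ Y0)
    (hd : ∀ i ∈ J, ∀ j ∈ J, i ≠ j → Disjoint (A i) (A j)) (cc : κ → ℕ → Fin 4)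
    (hne : ∀ i ∈ J, ∀ z : ℕ → Fin 4, (∀ a ∈ A i, z a = cc i a) → ∃ j ≤ L, ∃ j' ≤ L, F j z ≠ F j' z) :
    ∑ i ∈ range n, (mn L F (fun x => g (x + sid n i)) : ℝ)
      ≤ n * ((nst : ℝ) / 2 - (1 - (255 / 256 : ℝ) ^ J.card) / 2 + ε * 4 ^ h * nst) := by
  obtain ⟨Y, hYs, hYR, hYc⟩ := Finset.exists_subsuperset_card_eq (s := Y0) (t := range R) (n := h)
    (fun y hy => mem_range.mpr (hY0 y hy)) hY0c (by rw [card_range]; exact hR)
  have hdep' : ∀ j ≤ L, ∀ z z' : ℕ → Fin 4, (∀ y ∈ Y, z y = z' y) → F j z = F j z' :=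
    fun j hj z z' hh => hdep j hj z z' (fun y hy => hh y (hYs hy))
  have h1 := expect_min Y L F nst hdep' hrev J A hA (fun i hi => (hAY i hi).trans hYs) hd cc hne
  have hmnle : ∀ z, mn L F z ≤ nst := by
    intro z
    have h2 : mn L F z ≤ F 0 z := Finset.inf'_le (fun j => F j z) (mem_range.mpr (by omega))
    have h3 := hrev 0 (Nat.zero_le _) z
    omega
  have h2 := avg_le h n R ε g hg Y (mem_powersetCard.mpr ⟨hYR, hYc⟩) (fun z => (mn L F z : ℝ)) nst hε
    (fun z => Nat.cast_nonneg _) (fun z => by exact_mod_cast hmnle z)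
    (by
      intro z z' hh
      have : mn L F z = mn L F z' := by
        unfold mn
        apply Finset.inf'_congr (rng_ne L) rfl
        intro j hj
        exact hdep' j (by rw [mem_range] at hj; omega) z z' hh
      show (mn L F z : ℝ) = mn L F z'
      rw [this])
  refine h2.trans ?_
  apply mul_le_mul_of_nonneg_left _ (Nat.cast_nonneg _)
  have h4 : (0 : ℝ) < 4 ^ h := by positivity
  have h3 : (∑ c : (Y → Fin 4), (mn L F (extY Y c) : ℝ)) / 4 ^ h
      ≤ (nst : ℝ) / 2 - (1 - (255 / 256 : ℝ) ^ J.card) / 2 := by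
    rw [div_le_iff₀ h4]
    rw [hYc] at h1
    linarith
  linarith

end Pool.Agent.H184R3.SP
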