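import Mathlib
import Pool.Agent.H184R3.SP.Event

set_option autoImplicit false
namespace Pool.Agent.H184R3.SP
open Finset

def St0 (k L : ℕ) (s : ℕ → ℕ) (B : Finset ℕ) : Finset ℕ :=
  (range (k - 1)).filter (fun i => s i / L ∉ B ∧ s (i + 1) / L ∉ B)

theorem sum_decomp {M : Type*} [AddCommMonoid M] (k L : ℕ) (s : ℕ → ℕ) (B : Finset ℕ)
    (hind : ∀ i, i + 1 < k → s i / L ∈ B → s (i + 1) / L ∈ B → s i / L = s (i + 1) / L) (f : ℕ → M) :
    ∑ i ∈ range (k - 1), f i = ∑ i ∈ St0 k L s B, f i + ∑ b ∈ B, ∑ i ∈ St k L s b, f i := by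
  classical
  have hset : range (k - 1) = St0 k L s B ∪ B.biUnion (fun b => St k L s b) := by
    ext i
    unfold St0 St
    simp only [mem_union, mem_filter, mem_biUnion, mem_range]
    constructor
    · intro hi
      by_cases h1 : s i / L ∈ B
      · right; exact ⟨s i / L, h1, hi, Or.inl rfl⟩
      · by_cases h2 : s (i + 1) / L ∈ B
        · right; exact ⟨s (i + 1) / L, h2, hi, Or.inr rfl⟩
        · left; exact ⟨hi, h1, h2⟩
    · rintro (h | ⟨b, -, h, -⟩)
      · exact h.1
      · exact h
  rw [hset, Finset.sum_union, Finset.sum_biUnion]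
  · intro b hb b' hb' hbb
    rw [Function.onFun, Finset.disjoint_left]
    intro i hi hi'
    unfold St at hi hi'
    rw [mem_filter, mem_range] at hi hi'
    have hk : i + 1 < k := by omega
    have hb1 : b ∈ B := hb
    have hb1' : b' ∈ B := hb'
    rcases hi.2 with h | h <;> rcases hi'.2 with h' | h'
    · exact hbb (h.symm.trans h')
    · exact hbb (by rw [← h, ← h']; exact hind i hk (by rw [h]; exact hb1) (by rw [h']; exact hb1'))
    · exact hbb (by rw [← h, ← h']; exact (hind i hk (by rw [h']; exact hb1') (by rw [h]; exact hb1)).symm)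
    · exact hbb (h.symm.trans h')
  · rw [Finset.disjoint_left]
    intro i hi hi'
    unfold St0 at hi
    rw [mem_filter] at hi
    rw [mem_biUnion] at hi'
    obtain ⟨b, hb, hi'⟩ := hi'
    unfold St at hi'
    rw [mem_filter] at hi'
    rcases hi'.2 with h | h
    · exact hi.2.1 (by rw [h]; exact hb)
    · exact hi.2.2 (by rw [h]; exact hb)

theorem des_decomp (k L : ℕ) (s : ℕ → ℕ) (B : Finset ℕ)
    (hind : ∀ i, i + 1 < k → s i / L ∈ B → s (i + 1) / L ∈ B → s i / L = s (i + 1) / L)
    (z : ℕ → Fin 4) (Jf : ℕ → ℕ) :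
    ∑ i ∈ range (k - 1), des z (mu L B Jf (s i)) (mu L B Jf (s (i + 1)))
      = ∑ i ∈ St0 k L s B, des z (base L B (s i)) (base L B (s (i + 1)))
        + ∑ b ∈ B, Fb k L s B b (Jf b) z := by
  rw [sum_decomp k L s B hind]
  have hmu0 : ∀ t, t / L ∉ B → mu L B Jf t = base L B t := by
    intro t ht
    unfold mu
    rw [if_neg (fun h => ht h.1)]
    omega
  congr 1
  · apply Finset.sum_congr rfl
    intro i hi
    unfold St0 at hi
    rw [mem_filter] at hi
    rw [hmu0 _ hi.2.1, hmu0 _ hi.2.2]
  · apply Finset.sum_congr rfl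
    intro b hb
    unfold Fb
    have hmunu : ∀ t, (t / L = b ∨ t / L ∉ B) → mu L B Jf t = nu L B b (Jf b) t := by
      intro t ht
      rcases ht with h | h
      · unfold mu nu
        by_cases hc : Jf b ≤ t % L
        · rw [if_pos ⟨by rw [h]; exact hb, by rw [h]; exact hc⟩, if_pos ⟨h, hc⟩]
        · rw [if_neg (by rw [h]; exact fun hh => hc hh.2), if_neg (fun hh => hc hh.2)]
      · rw [hmu0 t h]
        unfold nu
        rw [if_neg]
        · omega
        · intro hh
          apply h
          rw [hh.1]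
          exact hb
    apply Finset.sum_congr rfl
    intro i hi
    unfold St at hi
    rw [mem_filter, mem_range] at hi
    have hk : i + 1 < k := by omega
    have h1 : s i / L = b ∨ s i / L ∉ B := by
      rcases hi.2 with h | h
      · exact Or.inl h
      · by_cases hh : s i / L ∈ B
        · left
          rw [hind i hk hh (by rw [h]; exact hb)]
          exact h
        · exact Or.inr hh
    have h2 : s (i + 1) / L = b ∨ s (i + 1) / L ∉ B := by
      rcases hi.2 with h | h
      · by_cases hh : s (i + 1) / L ∈ B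
        · left
          rw [← hind i hk (by rw [h]; exact hb) hh]
          exact h
        · exact Or.inr hh
      · exact Or.inl h
    rw [hmunu _ h1, hmunu _ h2]

theorem pattern_bound (L r k Q n R : ℕ) (ε : ℝ) (hε : 0 < ε) (hL : 0 < L) (hr : r * 28 + 2 ≤ L)
    (hn : 1 ≤ n) (hR : 8 * L ≤ R) (hkR : k + Q + 1 ≤ R) (hQ : Q * (2 * L + 1) ≤ k / L) (g : ℕ → Fin 4)
    (hg : ∀ Y ∈ (range R).powersetCard (8 * L), ∀ c : Y → Fin 4,
        (((range n).filter (fun i => ∀ y ∈ Y, g (y + sid n i) = extY Y c y)).card : ℝ)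
          ≤ (1 / 4 ^ (8 * L) + ε) * n)
    (s : ℕ → ℕ) (hs : Pat k s) :
    ∃ l : ℕ → ℕ, (∀ t t', t < t' → l t < l t') ∧ (∀ t < k, l t < k + Q + 3 * n ^ 3) ∧
      (((∑ i ∈ range (k - 1), des g (l (s i)) (l (s (i + 1))) : ℕ)) : ℝ)
        ≤ ((k - 1 : ℕ) : ℝ) * (1 / 2 + ε * 4 ^ (8 * L)) - Q * ((1 - (255 / 256 : ℝ) ^ r) / 2) := by
  classical
  obtain ⟨B, hB, hBc, hind⟩ := exists_blocks k L Q hL s hs hQ
  set h := 8 * L with hh
  set p : ℝ := (255 / 256 : ℝ) ^ r with hp
  let zz : ℕ → ℕ → Fin 4 := fun i x => g (x + sid n i)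
  have hJf : ∀ i b, ∃ j ∈ range (L + 1), mn L (fun j z => Fb k L s B b j z) (zz i) = Fb k L s B b j (zz i) := by
    intro i b
    exact Finset.exists_mem_eq_inf' (rng_ne L) (fun j => Fb k L s B b j (zz i))
  choose Jf hJfr hJf using hJf
  -- average over blocks
  have hblock : ∀ b ∈ B, ∑ i ∈ range n, (Fb k L s B b (Jf i b) (zz i) : ℝ)
      ≤ n * (((St k L s b).card : ℝ) / 2 - (1 - p) / 2 + ε * 4 ^ h * ((St k L s b).card : ℝ)) := by
    intro b hb
    obtain ⟨J, hJ, hJc, hJd⟩ := exists_centres k L r hL s hs b (mem_range.mp (hB hb)) hr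
    have := avg_expect h n R ε hε hR g hg (Yb k L s B b)
      (fun y hy => by
        have := Yb_lt k L s hs B b y hy
        omega)
      (card_Yb_le k L hL s hs B b) L (fun j z => Fb k L s B b j z) (St k L s b).card
      (fun j _ z z' hz => Fb_dep k L s B b j z z' hz)
      (fun j _ z => Fb_rev k L s hs B b j hb z)
      J (Aset L s B b) (fun i hi => card_Aset k L s hs B b hb i (hJ hi))
      (fun i hi => Aset_sub k L s hs B b hb i (hJ hi))
      (fun i hi i' hi' hne => Aset_disj L s B b i i' (hJd i hi i' hi' hne))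
      (cc L s B b)
      (fun i hi z hz => ⟨s (i + 1) % L + 1, Nat.mod_lt _ hL, s (i + 1) % L, (Nat.mod_lt _ hL).le,
        event k L s hs B b hb i (hJ hi) z hz⟩)
    rw [hJc] at this
    refine le_trans (le_of_eq ?_) this
    apply Finset.sum_congr rfl
    intro i _
    rw [← hJf i b]
  have hbase : ∀ i' ∈ St0 k L s B, ∑ i ∈ range n, (des (zz i) (base L B (s i')) (base L B (s (i' + 1))) : ℝ)
      ≤ n * (1 / 2 + ε * 4 ^ h) := by
    intro i' hi'
    unfold St0 at hi'
    rw [mem_filter, mem_range] at hi'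
    have hne : base L B (s i') ≠ base L B (s (i' + 1)) := by
      have hne1 : s i' ≠ s (i' + 1) := by
        intro hc
        have := hs.inj i' (by omega) (i' + 1) (by omega) hc
        omega
      rcases lt_or_gt_of_ne hne1 with h1 | h1
      · have := base_lt L B _ _ h1
        omega
      · have := base_lt L B _ _ h1
        omega
    have l1 := hs.lt i' (by omega)
    have l2 := hs.lt (i' + 1) (by omega)
    have b1 := base_le L B (s i')
    have b2 := base_le L B (s (i' + 1))
    have := avg_expect (κ := ℕ) h n R ε hε hR g hg {base L B (s i'), base L B (s (i' + 1))}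
      (fun y hy => by
        rw [mem_insert, mem_singleton] at hy
        omega)
      (by
        have := Finset.card_le_two (a := base L B (s i')) (b := base L B (s (i' + 1)))
        omega) 0 (fun _ z => des z (base L B (s i')) (base L B (s (i' + 1)))) 1
      (fun j _ z z' hz => des_congr z z' _ _ (hz _ (by simp)) (hz _ (by simp)))
      (fun j _ z => des_rv z _ _ hne)
      ∅ (fun _ => ∅) (by simp) (by simp) (by simp) (fun _ _ => 0) (by simp)
    rw [Finset.card_empty, pow_zero] at this
    refine le_trans (le_of_eq ?_) (this.trans (le_of_eq ?_))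
    · apply Finset.sum_congr rfl
      intro i _
      congr 1
    · push_cast
      ring
  -- total
  have hcard : ((k - 1 : ℕ) : ℝ) = ((St0 k L s B).card : ℝ) + ∑ b ∈ B, ((St k L s b).card : ℝ) := by
    have := sum_decomp k L s B hind (fun _ => (1 : ℝ))
    simpa using this
  have htot : ∑ i ∈ range n, (((∑ i' ∈ range (k - 1), des (zz i) (mu L B (Jf i) (s i')) (mu L B (Jf i) (s (i' + 1))) : ℕ)) : ℝ)
      ≤ ∑ i ∈ range n, (((k - 1 : ℕ) : ℝ) * (1 / 2 + ε * 4 ^ h) - Q * ((1 - p) / 2)) := by
    have e1 : ∀ i ∈ range n, (((∑ i' ∈ range (k - 1), des (zz i) (mu L B (Jf i) (s i')) (mu L B (Jf i) (s (i' + 1))) : ℕ)) : ℝ)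
        = ∑ i' ∈ St0 k L s B, (des (zz i) (base L B (s i')) (base L B (s (i' + 1))) : ℝ)
        + ∑ b ∈ B, (Fb k L s B b (Jf i b) (zz i) : ℝ) := by
      intro i _
      rw [des_decomp k L s B hind]
      push_cast
      rfl
    rw [Finset.sum_congr rfl e1, Finset.sum_add_distrib, Finset.sum_comm, Finset.sum_comm (s := range n) (t := B)]
    calc _ ≤ ∑ i' ∈ St0 k L s B, ((n : ℝ) * (1 / 2 + ε * 4 ^ h))
          + ∑ b ∈ B, (n * (((St k L s b).card : ℝ) / 2 - (1 - p) / 2 + ε * 4 ^ h * ((St k L s b).card : ℝ))) :=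
          add_le_add (Finset.sum_le_sum hbase) (Finset.sum_le_sum hblock)
      _ = n * (((St0 k L s B).card : ℝ) * (1 / 2 + ε * 4 ^ h)
          + ((∑ b ∈ B, ((St k L s b).card : ℝ)) * (1 / 2 + ε * 4 ^ h) - Q * ((1 - p) / 2))) := by
          rw [Finset.sum_const, nsmul_eq_mul]
          have : ∑ b ∈ B, (n * (((St k L s b).card : ℝ) / 2 - (1 - p) / 2 + ε * 4 ^ h * ((St k L s b).card : ℝ)))
              = n * ((∑ b ∈ B, ((St k L s b).card : ℝ)) * (1 / 2 + ε * 4 ^ h) - Q * ((1 - p) / 2)) := by
            rw [← hBc, Finset.sum_mul, mul_sub, Finset.mul_sum]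
            have e2 : (n : ℝ) * ((B.card : ℝ) * ((1 - p) / 2)) = ∑ b ∈ B, (n * ((1 - p) / 2)) := by
              rw [Finset.sum_const, nsmul_eq_mul]; ring
            rw [e2, ← Finset.sum_sub_distrib]
            apply Finset.sum_congr rfl
            intro b _
            ring
          rw [this]
          ring
      _ = _ := by
          rw [Finset.sum_const, card_range, nsmul_eq_mul, hcard]
          ring
  obtain ⟨i, hi, hile⟩ := Finset.exists_le_of_sum_le (⟨0, mem_range.mpr (by omega)⟩) htot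
  rw [mem_range] at hi
  refine ⟨fun t => mu L B (Jf i) t + sid n i, ?_, ?_, ?_⟩
  · intro t t' htt
    have := mu_lt L B (Jf i) t t' htt
    show mu L B (Jf i) t + sid n i < mu L B (Jf i) t' + sid n i
    omega
  · intro t ht
    have h1 := mu_le L B (Jf i) t
    have h2 := sid_le n i hi
    show mu L B (Jf i) t + sid n i < k + Q + 3 * n ^ 3
    omega
  · refine le_trans (le_of_eq ?_) hile
    congr 1
    apply Finset.sum_congr rfl
    intro i' _
    rw [← des_shift g (sid n i)]

end Pool.Agent.H184R3.SP
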