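import Mathlib
import Pool.Agent.H184R3.SP.Assemble

set_option autoImplicit false
namespace Pool.Agent.H184R3.SP
open Finset

theorem exists_r (δ : ℝ) (hδ : 0 < δ) : ∃ r : ℕ, 1 ≤ r ∧
    1 / (3 * (((28 * r + 2 : ℕ) : ℝ)) ^ 2) ≤ δ / 2 ∧
    (255 / 256 : ℝ) ^ r ≤ (1 / (3 * (((28 * r + 2 : ℕ) : ℝ)) ^ 2)) / 4 := by
  have h1 : Filter.Tendsto (fun r : ℕ => (r : ℝ) ^ 2 * (255 / 256 : ℝ) ^ r) Filter.atTop (nhds 0) :=
    tendsto_pow_const_mul_const_pow_of_abs_lt_one 2 (by rw [abs_lt]; constructor <;> norm_num)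
  have hev := h1.eventually (gt_mem_nhds (show (0 : ℝ) < 1 / (12 * 900) by norm_num))
  obtain ⟨r0, hr0⟩ := Filter.eventually_atTop.mp hev
  obtain ⟨r1, hr1⟩ := exists_nat_gt (1 / δ)
  refine ⟨max r0 (max r1 1), ?_, ?_, ?_⟩
  · exact le_trans (le_max_right _ _) (le_max_right _ _)
  · set r := max r0 (max r1 1) with hr
    have hr1' : (r1 : ℝ) ≤ r := by exact_mod_cast le_trans (le_max_left _ _) (le_max_right _ _)
    have hr1'' : (1 : ℝ) ≤ r := by exact_mod_cast le_trans (le_max_right r1 1) (le_max_right r0 _)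
    push_cast
    rw [div_le_iff₀ (by positivity)]
    have h2 : 1 < δ * r := by
      have : 1 / δ < r := lt_of_lt_of_le hr1 hr1'
      rw [div_lt_iff₀ hδ] at this
      linarith
    have h3 : (r : ℝ) ≤ (28 * (r : ℝ) + 2) ^ 2 := by nlinarith
    nlinarith
  · set r := max r0 (max r1 1) with hr
    have hr1'' : (1 : ℝ) ≤ r := by exact_mod_cast le_trans (le_max_right r1 1) (le_max_right r0 _)
    have h2 := hr0 r (le_max_left _ _)
    push_cast
    rw [div_div, le_div_iff₀ (by positivity)]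
    have h3 : (28 * (r : ℝ) + 2) ^ 2 ≤ 900 * r ^ 2 := by nlinarith
    have h4 : (0 : ℝ) < (255 / 256 : ℝ) ^ r := by positivity
    calc (255 / 256 : ℝ) ^ r * (3 * (28 * (r : ℝ) + 2) ^ 2 * 4)
        ≤ (255 / 256 : ℝ) ^ r * (3 * (900 * r ^ 2) * 4) := by
          apply mul_le_mul_of_nonneg_left _ h4.le
          linarith
      _ = 12 * 900 * ((r : ℝ) ^ 2 * (255 / 256 : ℝ) ^ r) := by ring
      _ ≤ 12 * 900 * (1 / (12 * 900)) := by
          apply mul_le_mul_of_nonneg_left h2.le (by norm_num)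
      _ = 1 := by norm_num

theorem num_bd0 (α p k : ℝ) (hα : 0 < α) (hα12 : α ≤ 1 / 12) (hp0 : 0 < p) (hp1 : p ≤ 1) (hk : 2 ≤ k) :
    0 ≤ (k - 1) * (1 / 2 + α ^ 2 / 16) - α * k * ((1 - p) / 2) := by
  have e2 : α * k * ((1 - p) / 2) ≤ (1 / 12) * k * (1 / 2) := by
    have a1 : α * k ≤ (1 / 12) * k := mul_le_mul_of_nonneg_right hα12 (by linarith)
    have a2 : (1 - p) / 2 ≤ 1 / 2 := by linarith
    exact mul_le_mul a1 a2 (by linarith) (by linarith)
  have e3 : 0 ≤ (k - 1) * (α ^ 2 / 16) := mul_nonneg (by linarith) (by positivity)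
  have e4 : (k - 1) * (1 / 2 + α ^ 2 / 16) = (k - 1) / 2 + (k - 1) * (α ^ 2 / 16) := by ring
  rw [e4]
  linarith

theorem num_bd (α p k k1 : ℝ) (hα : 0 < α) (hk : 0 < k) (hp : p ≤ α / 4) (hk1 : k1 ≤ k)
    (h1k : 1 ≤ α ^ 2 / 32 * k) :
    k1 * (1 / 2 + α ^ 2 / 16) - α * k * ((1 - p) / 2) + 1 ≤ (k / 2) * (1 - α + 7 / 16 * α ^ 2) := by
  have e1 := mul_le_mul_of_nonneg_right hk1 (show (0 : ℝ) ≤ 1 / 2 + α ^ 2 / 16 by positivity)
  have e2 : α * k * p ≤ α * k * (α / 4) := mul_le_mul_of_nonneg_left hp (by positivity)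
  have e3 : (k / 2) * (1 - α + 7 / 16 * α ^ 2)
      = k * (1 / 2 + α ^ 2 / 16) - α * k / 2 + (α * k * (α / 4)) / 2 + α ^ 2 / 32 * k := by ring
  have e4 : α * k * ((1 - p) / 2) = α * k / 2 - (α * k * p) / 2 := by ring
  rw [e3, e4]
  linarith

theorem num_final (α k T N : ℝ) (hα : 0 < α) (hα12 : α ≤ 1 / 12) (hk : 0 < k)
    (hT : T ≤ (k / 2) * (1 - α + 7 / 16 * α ^ 2)) (hN0 : 0 ≤ N) (hN : N ≤ k * (1 + α + α ^ 2 / 16)) :
    T * N ≤ (1 / 2 - 2 * (α ^ 2 / 16)) * k ^ 2 := by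
  have a0 : 0 ≤ 1 - α + 7 / 16 * α ^ 2 := by nlinarith
  have a2 : 0 ≤ α ^ 2 := by positivity
  have a3 : α ^ 3 ≤ (1 / 12) * α ^ 2 := by
    have := mul_le_mul_of_nonneg_right hα12 a2
    calc α ^ 3 = α * α ^ 2 := by ring
      _ ≤ _ := this
  have a4 : α ^ 4 ≤ (1 / 12) * (1 / 12) * α ^ 2 := by
    have h5 := mul_le_mul_of_nonneg_left a3 hα.le
    have h6 : α * (1 / 12 * α ^ 2) ≤ (1 / 12) * (1 / 12 * α ^ 2) :=
      mul_le_mul_of_nonneg_right hα12 (by positivity)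
    calc α ^ 4 = α * α ^ 3 := by ring
      _ ≤ _ := h5
      _ ≤ _ := h6
      _ = _ := by ring
  calc T * N ≤ ((k / 2) * (1 - α + 7 / 16 * α ^ 2)) * (k * (1 + α + α ^ 2 / 16)) :=
        mul_le_mul hT hN hN0 (by positivity)
    _ = k ^ 2 * (1 / 2 * (1 - α ^ 2 / 2 + 3 / 8 * α ^ 3 + 7 / 256 * α ^ 4)) := by ring
    _ ≤ k ^ 2 * (1 / 2 - 2 * (α ^ 2 / 16)) := by
        apply mul_le_mul_of_nonneg_left _ (by positivity)
        linarith
    _ = _ := by ring

set_option maxHeartbeats 4000000 in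
theorem main (δ : ℝ) (hδ : 0 < δ) : ∃ ε : ℝ, 0 < ε ∧ ∀ K : ℕ, ∃ k : ℕ, K ≤ k ∧ 0 < k ∧ ∃ w : List ℕ,
    (∀ x ∈ w, x < ⌊(1 + δ) * (k : ℝ)⌋₊) ∧
    (∀ σ : Equiv.Perm (Fin k), ∃ e : Fin k → Fin w.length,
          StrictMono e ∧ ∀ i j : Fin k, (w.get (e i) < w.get (e j) ↔ σ i < σ j)) ∧
    (w.length : ℝ) ≤ (1 / 2 - 2 * ε) * ((k : ℝ) ^ 2) := by
  obtain ⟨r, hr1, hα, hp⟩ := exists_r δ hδ
  set L : ℕ := 28 * r + 2 with hL
  clear_value L
  have hL30 : 30 ≤ L := by omega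
  have hLr : (30 : ℝ) ≤ (L : ℝ) := by exact_mod_cast hL30
  set α : ℝ := 1 / (3 * (L : ℝ) ^ 2) with hαd
  have hαpos : 0 < α := by positivity
  have hα12 : α ≤ 1 / 12 := by
    rw [hαd]
    apply one_div_le_one_div_of_le (by norm_num)
    nlinarith
  clear_value α
  set p : ℝ := (255 / 256 : ℝ) ^ r with hpd
  have hp0 : 0 < p := by positivity
  have hp1 : p ≤ 1 := pow_le_one₀ (by norm_num) (by norm_num)
  clear_value p
  set h : ℕ := 8 * L with hh
  clear_value h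
  set η : ℝ := α ^ 2 / 16 / 4 ^ h with hη
  clear_value η
  have h4pos : (0 : ℝ) < 4 ^ h := by positivity
  have hηpos : 0 < η := by rw [hη]; positivity
  have hη1 : η ≤ 1 := by
    rw [hη, div_le_one h4pos]
    have : (1 : ℝ) ≤ 4 ^ h := one_le_pow₀ (by norm_num)
    nlinarith
  have hη4 : η * 4 ^ h = α ^ 2 / 16 := by
    rw [hη]; field_simp
  obtain ⟨n0, hn01, hn0⟩ := exists_word h (3 * L ^ 2 + 2) (by omega) η hηpos hη1
  obtain ⟨n1, hn1⟩ := exists_nat_gt (32 / α ^ 2)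
  refine ⟨α ^ 2 / 16, by positivity, ?_⟩
  intro K
  set n : ℕ := max (max n0 n1) (max K 2) with hnd
  have hnn0 : n0 ≤ n := le_trans (le_max_left _ _) (le_max_left _ _)
  have hnn1 : n1 ≤ n := le_trans (le_max_right _ _) (le_max_left _ _)
  have hnK : K ≤ n := le_trans (le_max_left _ _) (le_max_right _ _)
  have hn2 : 2 ≤ n := le_trans (le_max_right _ _) (le_max_right _ _)
  clear_value n
  obtain ⟨g, hg⟩ := hn0 n hnn0
  set Q : ℕ := n ^ 4 with hQ
  set k : ℕ := 3 * L ^ 2 * Q with hk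
  clear_value Q k
  have hnQ : n ≤ Q := by
    rw [hQ]; exact Nat.le_self_pow (by norm_num) n
  have hLL : 1 ≤ L ^ 2 := Nat.one_le_pow _ _ (by omega)
  have hQk : 3 * Q ≤ k := by
    rw [hk]
    calc 3 * Q = 3 * 1 * Q := by ring
      _ ≤ 3 * L ^ 2 * Q := Nat.mul_le_mul_right _ (Nat.mul_le_mul_left _ hLL)
  have hRval : (3 * L ^ 2 + 2) * Q = k + Q + Q := by rw [hk]; ring
  have hLk : 8 * L ≤ k := by
    rw [hk]
    have h1 : 8 * L ≤ 3 * L ^ 2 := by nlinarith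
    calc 8 * L ≤ 3 * L ^ 2 := h1
      _ = 3 * L ^ 2 * 1 := by ring
      _ ≤ 3 * L ^ 2 * Q := Nat.mul_le_mul_left _ (by omega)
  refine ⟨k, by omega, by omega, ?_⟩
  set N : ℕ := k + Q + 3 * n ^ 3 with hN
  set bd : ℝ := ((k - 1 : ℕ) : ℝ) * (1 / 2 + η * 4 ^ h) - Q * ((1 - p) / 2) with hbd
  set T : ℕ := ⌊bd⌋₊ + 1 with hT
  clear_value N bd T
  -- real estimates
  have hnr : (n : ℝ) > 32 / α ^ 2 := lt_of_lt_of_le hn1 (by exact_mod_cast hnn1)
  have hnα : 32 < (n : ℝ) * α ^ 2 := by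
    rw [gt_iff_lt, div_lt_iff₀ (by positivity)] at hnr
    exact hnr
  have hnpos : (0 : ℝ) < n := by
    have : 0 < n := by omega
    exact_mod_cast this
  have hkr : (k : ℝ) = (Q : ℝ) / α := by
    rw [hk, hαd]; push_cast; field_simp
  have hQr : (Q : ℝ) = α * k := by rw [hkr]; field_simp
  have hkpos : (0 : ℝ) < k := by
    have : 0 < k := by omega
    exact_mod_cast this
  have hQn : (Q : ℝ) = (n : ℝ) ^ 4 := by rw [hQ]; push_cast; ring
  have h3n : 3 * (n : ℝ) ^ 3 ≤ α ^ 2 / 16 * k := by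
    -- n^3 * 32 ≤ n^4 α^2 = Q α^2 ≤ k α^2 * α
    have h1 : 32 * (n : ℝ) ^ 3 ≤ (Q : ℝ) * α ^ 2 := by
      rw [hQn]
      have := mul_le_mul_of_nonneg_right hnα.le (show (0 : ℝ) ≤ (n : ℝ) ^ 3 by positivity)
      calc 32 * (n : ℝ) ^ 3 ≤ (n : ℝ) * α ^ 2 * (n : ℝ) ^ 3 := this
        _ = _ := by ring
    rw [hQr] at h1
    have h2 : α * k * α ^ 2 ≤ (1 / 12) * (k * α ^ 2) := by
      have : α * (k * α ^ 2) ≤ (1 / 12) * (k * α ^ 2) :=
        mul_le_mul_of_nonneg_right hα12 (by positivity)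
      linarith
    nlinarith [show (0:ℝ) < k * α ^ 2 by positivity]
  have h1k : 1 ≤ α ^ 2 / 32 * k := by
    have hnk : (n : ℝ) ≤ k := by
      have : n ≤ k := by omega
      exact_mod_cast this
    have := mul_le_mul_of_nonneg_right hnk (show (0 : ℝ) ≤ α ^ 2 by positivity)
    linarith
  have hk1 : ((k - 1 : ℕ) : ℝ) ≤ k := by exact_mod_cast Nat.sub_le k 1
  have hk1' : ((k - 1 : ℕ) : ℝ) = (k : ℝ) - 1 := by
    rw [Nat.cast_sub (by omega)]; norm_num
  have hbd0 : 0 ≤ bd := by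
    rw [hbd, hη4, hk1', hQr]
    have e3 : (2 : ℝ) ≤ k := by
      have : 2 ≤ k := by omega
      exact_mod_cast this
    exact num_bd0 α p k hαpos hα12 hp0 hp1 e3
  have hTle : (T : ℝ) ≤ bd + 1 := by
    rw [hT]; push_cast
    have := Nat.floor_le hbd0
    linarith
  have hbdle : bd + 1 ≤ (k / 2) * (1 - α + 7 / 16 * α ^ 2) := by
    rw [hbd, hη4, hQr]
    exact num_bd α p k _ hαpos hkpos hp hk1 h1k
  have hNle : (N : ℝ) ≤ k * (1 + α + α ^ 2 / 16) := by
    rw [hN]; push_cast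
    rw [hQr]
    linarith
  refine ⟨word N T g, ?_, ?_, ?_⟩
  · intro x hx
    have h1 := word_lt N T g (by omega) x hx
    refine lt_of_lt_of_le h1 ?_
    apply Nat.le_floor
    refine hNle.trans ?_
    rw [mul_comm]
    apply mul_le_mul_of_nonneg_right _ hkpos.le
    nlinarith
  · intro σ
    let s : ℕ → ℕ := fun i => if hi : i < k then (σ ⟨i, hi⟩).val else 0
    have hsdef : ∀ i : Fin k, s i.val = (σ i).val := by
      intro i
      simp only [s]
      rw [dif_pos i.2]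
    have hs : Pat k s := by
      refine ⟨?_, ?_, ?_⟩
      · intro i hi
        rw [hsdef ⟨i, hi⟩]
        exact (σ ⟨i, hi⟩).2
      · intro i hi j hj hij
        rw [hsdef ⟨i, hi⟩, hsdef ⟨j, hj⟩] at hij
        have := σ.injective (Fin.ext hij)
        exact congrArg Fin.val this
      · intro t ht
        refine ⟨(σ.symm ⟨t, ht⟩).val, (σ.symm ⟨t, ht⟩).2, ?_⟩
        rw [hsdef]
        simp
    have hg' := hg
    rw [hh] at hg'
    obtain ⟨l, hlmono, hlt, hD⟩ := pattern_bound L r k Q n ((3 * L ^ 2 + 2) * Q) η hηpos (by omega)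
      (by omega) (by omega) (by omega) (by omega)
      (by
        rw [Nat.le_div_iff_mul_le (by omega), hk]
        have : 2 * L + 1 ≤ 3 * L := by omega
        calc Q * (2 * L + 1) * L ≤ Q * (3 * L) * L := by
              apply Nat.mul_le_mul_right
              exact Nat.mul_le_mul_left _ this
          _ = 3 * L ^ 2 * Q := by ring) g hg' s hs
    rw [← hh, ← hpd, ← hbd] at hD
    rw [← hN] at hlt
    have hDT : ∑ i ∈ range (k - 1), des g (l (s i)) (l (s (i + 1))) < T := by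
      rw [hT]
      exact Nat.lt_succ_of_le (Nat.le_floor hD)
    obtain ⟨e, he, hget⟩ := word_embed N T g k (fun i => l (s i))
      (fun i hi => hlt _ (hs.lt i hi))
      (by
        intro i hi
        have hne : s i ≠ s (i + 1) := by
          intro hc
          have := hs.inj i (by omega) (i + 1) hi hc
          omega
        rcases lt_or_gt_of_ne hne with h1 | h1
        · exact (hlmono _ _ h1).ne
        · exact (hlmono _ _ h1).ne') hDT
    refine ⟨e, he, ?_⟩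
    intro i j
    rw [hget i, hget j]
    show l (s i.val) < l (s j.val) ↔ σ i < σ j
    rw [hsdef i, hsdef j]
    constructor
    · intro h1
      by_contra h2
      push Not at h2
      rcases lt_or_eq_of_le h2 with h3 | h3
      · have := hlmono _ _ (show (σ j).val < (σ i).val from h3)
        omega
      · rw [h3] at h1
        exact lt_irrefl _ h1
    · intro h1
      exact hlmono _ _ h1
  · rw [word_length]
    push_cast
    have hN0 : (0 : ℝ) ≤ N := Nat.cast_nonneg _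
    exact num_final α k T N hαpos hα12 hkpos (hTle.trans hbdle) hN0 hNle

end Pool.Agent.H184R3.SP
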